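import Pool.Agent.Helper62_DA.Iso3
import Pool.Agent.Helper3_DA.WdFin

/-!
The statement on isolated full units in the form used by the word theorem.
-/

set_option autoImplicit false
set_option linter.unusedSectionVars false

namespace CLB.H62

open Finset Classical
open CLB.H95
open CLB.H3 (Cat pos pc pc_one IsoStmt)

variable {V : Type*} {G : SimpleGraph V} {R : V → Bool} [Fintype V] {k : ℕ} {x y : ℕ → V}
  {m : ℕ} {z c : ℕ → V}

theorem isoStmt (hG : ClassC G R) (hc : Crit G R) (h : Chn G R k x y) (hcat : Cat G R m z c)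
    (hk : 2 ≤ k) (hm : 6 ≤ m) (hn : NCp m (JC k x y c)) : IsoStmt k x y m c := by
  intro h1 h2 v hv hv' hx hy hu
  obtain ⟨i, hi, ci⟩ := hx
  obtain ⟨j, hj, cj⟩ := hy
  have C : Cf G R k x y m z c := Cf.of_ncp hG hc h hcat hk hm hn
    (fun i j hi hj e1 e2 => pc_one h1 hi hj e1 e2) (fun i j hi hj e1 e2 => pc_one h2 hi hj e1 e2)
  rcases iso_ldl C hv hv' hi hj ci cj hu with ⟨a, l, hl, e⟩ | ⟨a, l, hl, e⟩
  · exact Or.inl ⟨l, hl, a, e⟩
  · exact Or.inr ⟨l, hl, a, e⟩

end CLB.H62
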