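import Pool.Agent.Helper80_DA.CleanEnd
import Pool.Agent.Helper95_CLB.TFive

/-!
The other components at the first five units of an open chain, when one component sees `x 1, ..., x 5`.
-/

set_option autoImplicit false
set_option linter.unusedSectionVars false

namespace CLB.H62

open Finset Classical CLB.H95
open H3DA (Q neg nr)
open CLB.H3 (Cat pos NoFull noFull_inj noFull_small)
open CLB.H80 (same_unit port_mem own_lk ncp_miss ncp_abc ncp_three ncp_mono loc_le4 fp_sum_le fp_see
  win_see clean_end)
open CLB.H91 (LM no_fork_xx ncp_forks)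

variable {V : Type*} {G : SimpleGraph V} {R : V → Bool} [Fintype V] {k : ℕ} {x y : ℕ → V}
  {m m' r : ℕ} {z c z' c' : ℕ → V}

/-- The number of seen vertices. -/
lemma sp_cardf (h : Chn G R k x y) {a b : ℕ} (hS : Sp k x y m' c' a b) : a + b ≤ m' + 2 := by
  have hab := hS.ab
  have ex1 : ∀ i, 1 ≤ i → i ≤ a → ∃ j ≤ m' + 1, c' j = x i := fun i i1 i2 => hS.px i i1 i2
  have ex2 : ∀ i, i ≤ k → k + 1 ≤ i + b → ∃ j ≤ m' + 1, c' j = y i := fun i i1 i2 => hS.py i i1 i2
  let g : ℕ → ℕ := fun i => if hi : 1 ≤ i ∧ i ≤ a then (ex1 i hi.1 hi.2).choose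
    else if hi : i ≤ k ∧ k + 1 ≤ i + b then (ex2 i hi.1 hi.2).choose else 0
  have gx : ∀ i, 1 ≤ i → i ≤ a → g i ≤ m' + 1 ∧ c' (g i) = x i := by
    intro i i1 i2
    simp only [g, dif_pos (show 1 ≤ i ∧ i ≤ a from ⟨i1, i2⟩)]
    exact (ex1 i i1 i2).choose_spec
  have gy : ∀ i, a < i → i ≤ k → k + 1 ≤ i + b → g i ≤ m' + 1 ∧ c' (g i) = y i := by
    intro i i0 i1 i2
    simp only [g, dif_neg (show ¬ (1 ≤ i ∧ i ≤ a) by omega),
      dif_pos (show i ≤ k ∧ k + 1 ≤ i + b from ⟨i1, i2⟩)]
    exact (ex2 i i1 i2).choose_spec
  have hcd : ((Icc 1 a) ∪ (Icc (k + 1 - b) k)).card ≤ (range (m' + 2)).card := by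
    refine Finset.card_le_card_of_injOn g ?_ ?_
    · intro i hi
      rw [mem_coe, mem_union, mem_Icc, mem_Icc] at hi
      rw [mem_coe, mem_range]
      rcases hi with hi | hi
      · have := (gx i hi.1 hi.2).1; omega
      · have := (gy i (by omega) hi.2 (by omega)).1; omega
    · intro i hi j hj hij
      rw [mem_coe, mem_union, mem_Icc, mem_Icc] at hi hj
      rcases hi with hi | hi <;> rcases hj with hj | hj
      · have e1 := (gx i hi.1 hi.2).2
        have e2 := (gx j hj.1 hj.2).2
        rw [hij] at e1
        exact h.injx i j hi.1 (by omega) hj.1 (by omega) (e1.symm.trans e2)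
      · have e1 := (gx i hi.1 hi.2).2
        have e2 := (gy j (by omega) hj.2 (by omega)).2
        rw [hij] at e1
        exact absurd (e1.symm.trans e2) (h.xy i j hi.1 (by omega) (by omega) hj.2)
      · have e1 := (gy i (by omega) hi.2 (by omega)).2
        have e2 := (gx j hj.1 hj.2).2
        rw [hij] at e1
        exact absurd (e2.symm.trans e1) (h.xy j i hj.1 (by omega) (by omega) hi.2)
      · have e1 := (gy i (by omega) hi.2 (by omega)).2
        have e2 := (gy j (by omega) hj.2 (by omega)).2
        rw [hij] at e1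
        exact h.injy i j (by omega) hi.2 (by omega) hj.2 (e1.symm.trans e2)
  rw [Finset.card_union_of_disjoint (by
    rw [Finset.disjoint_left]
    intro i hi hi'
    rw [mem_Icc] at hi hi'
    omega), Nat.card_Icc, Nat.card_Icc, card_range] at hcd
  have := hS.a1
  have := hS.b1
  omega

/-- **The first five units.** -/
theorem clean_five (hG : ClassC G R) (hc : Crit G R) (h : Chn G R k x y) (hk : 7 ≤ k)
    (hends : (∀ w, ¬ Lk G R (x 1) w) ∧ ∀ w, ¬ Lk G R (y k) w) (hcat : Cat G R m z c)
    (s : ∀ i, 1 ≤ i → i ≤ 5 → ∃ j ≤ m + 1, c j = x i)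
    (h5 : ∀ z' c' : ℕ → V, Cat G R 5 z' c' → NCp 5 (JC k x y c') → (∃ a b, Sp k x y 5 c' a b) ∨
      T5 k x y 5 c' ∨ T5 k (fun i => y (k + 1 - i)) (fun i => x (k + 1 - i)) 5 c')
    (hC : Cat G R m' z' c') (hne : cSupp m' z' ≠ cSupp m z) :
    (m' = 1 → ∀ i j, i ≤ 2 → j ≤ 2 → InC 5 x y (c' i) → InC 5 x y (c' j) → i = j) ∧
    (2 ≤ m' → ¬ NCp m' (fun j => InC 5 x y (c' j))) := by
  have hk3 : 3 ≤ k := by omega
  have mono : ∀ v, InC 5 x y v → InC k x y v := by
    rintro v ⟨u, u1, u2, u3⟩
    exact ⟨u, u1, by omega, u3⟩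
  -- the owned vertices
  have own : ∀ i, 2 ≤ i → i ≤ 5 → ∀ l ≤ m' + 1, c' l ≠ x i := by
    intro i i1 i2 l hl e
    obtain ⟨j, hj, e'⟩ := s i (by omega) i2
    have hlk := h.lk (i - 1) (by omega) (by omega)
    rw [show i - 1 + 1 = i by omega] at hlk
    exact hne (own_lk hG hcat hC hlk.symm hj hl e' e)
  have hout : ∀ i, 6 ≤ i → i ≤ k → ¬ InC 5 x y (x i) ∧ ¬ InC 5 x y (y i) := by
    intro i i1 i2
    constructor
    · rintro ⟨u, u1, u2, u3 | u3⟩
      · have := h.injx i u (by omega) i2 u1 (by omega) u3; omega
      · exact h.xy i u (by omega) i2 u1 (by omega) u3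
    · rintro ⟨u, u1, u2, u3 | u3⟩
      · exact h.xy u i u1 (by omega) (by omega) i2 u3.symm
      · have := h.injy i u (by omega) i2 u1 (by omega) u3; omega
  refine ⟨fun hm i j hi hj hin hjn => ?_, fun hm hN => ?_⟩
  · subst hm
    rcases oneH hG h hk3 z' c' hC with hS | hS
    · have key : ∀ l ≤ 1 + 1, InC 5 x y (c' l) → c' l = x 1 := by
        intro l hl hlin
        rcases hS.all l hl (mono _ hlin) with ⟨u, u1, u2, u3⟩ | ⟨u, u1, u2, u3⟩
        · have : u = 1 := by omega
          rw [this] at u3; exact u3
        · exfalso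
          rw [u3] at hlin
          exact (hout u (by omega) u1).2 hlin
      exact hS.inj i j hi hj (mono _ hin) ((key i hi hin).trans (key j hj hjn).symm)
    · exact hS i j hi hj (mono _ hin) (mono _ hjn)
  have hNk : NCp m' (JC k x y c') := ncp_mono (fun j hj => mono _ hj) hN
  -- one port per unit for the special components
  have five : ∀ a b, Sp k x y m' c' a b → a = 1 := by
    intro a b hS
    have h1 := hS.a1
    by_contra hcon
    obtain ⟨j, hj, e⟩ := hS.px 2 (by omega) (by omega)
    exact own 2 le_rfl (by omega) j hj e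
  rcases Nat.lt_or_ge m' 5 with hm5 | hm5
  swap
  · -- at least five vertices
    obtain ⟨j0, hj0⟩ := ncp_miss hm5 hN
    by_cases he : m' = 5
    · subst he
      rcases h5 z' c' hC hNk with ⟨a, b, hS⟩ | hT | hT
      · -- the special components see only five units
        have ha := five a b hS
        subst ha
        have hab := hS.ab
        have c1 : ((range 7).erase j0).card ≤ (Icc 1 5).card := by
          refine Finset.card_le_card_of_injOn (fun j => idx 5 x y (c' j)) ?_ ?_
          · intro j hj
            rw [mem_coe, mem_erase, mem_range] at hj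
            have := idx_spec (hj0 j (by omega) hj.1)
            rw [mem_coe, mem_Icc]
            exact ⟨this.1, this.2.1⟩
          · intro i hi j hj hij
            rw [mem_coe, mem_erase, mem_range] at hi hj
            have hi0 := hj0 i (by omega) hi.1
            have hj0' := hj0 j (by omega) hj.1
            have e1 := idx_spec hi0
            have e2 := idx_spec hj0'
            have hij' : idx 5 x y (c' i) = idx 5 x y (c' j) := hij
            rw [← hij'] at e2
            have key : ∀ l, l ≤ 5 + 1 → InC 5 x y (c' l) → ∀ u, 1 ≤ u → u ≤ 5 → (c' l = x u ∨ c' l = y u) →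
                (c' l = x u ∧ u = 1) ∨ (c' l = y u ∧ k + 1 ≤ u + b) := by
              intro l hl hin u u1 u2 u3
              rcases hS.all l hl (mono _ hin) with ⟨v, v1, v2, v3⟩ | ⟨v, v1, v2, v3⟩
              · rcases u3 with u3 | u3
                · have := h.injx u v u1 (by omega) v1 (by omega) (u3.symm.trans v3)
                  exact Or.inl ⟨u3, by omega⟩
                · exact absurd (v3.symm.trans u3) (h.xy v u v1 (by omega) u1 (by omega))
              · rcases u3 with u3 | u3
                · exact absurd (u3.symm.trans v3) (h.xy u v u1 (by omega) (by omega) v1)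
                · have := h.injy u v u1 (by omega) (by omega) v1 (u3.symm.trans v3)
                  exact Or.inr ⟨u3, by omega⟩
            have k1 := key i (by omega) hi0 _ e1.1 e1.2.1 e1.2.2
            have k2 := key j (by omega) hj0' _ e1.1 e1.2.1 e2.2.2
            rcases k1 with ⟨k1, k1'⟩ | ⟨k1, k1'⟩ <;> rcases k2 with ⟨k2, k2'⟩ | ⟨k2, k2'⟩
            · exact hS.inj i j (by omega) (by omega) (mono _ hi0) (k1.trans k2.symm)
            · omega
            · omega
            · exact hS.inj i j (by omega) (by omega) (mono _ hi0) (k1.trans k2.symm)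
        rw [Nat.card_Icc] at c1
        have c2 : 6 ≤ ((range 7).erase j0).card := by
          by_cases hj : j0 ∈ range 7
          · rw [Finset.card_erase_of_mem hj, card_range]
          · rw [Finset.erase_eq_of_notMem hj, card_range]; omega
        omega
      · obtain ⟨-, k9, a, b, d, e, p, -, hp, -, hb, hcp, hc3, -⟩ := hT
        have n3 : 3 = j0 := by
          by_contra hcon
          have := hj0 3 (by omega) hcon
          rw [hc3] at this
          exact (hout k (by omega) le_rfl).2 this
        have np : p = j0 := by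
          by_contra hcon
          have := hj0 p (by omega) hcon
          rw [hcp] at this
          exact (hout (k - 1) (by omega) (by omega)).2 this
        omega
      · obtain ⟨-, k9, a, b, d, e, p, hf, hp, ha, hb, hcp, hc3, -, hd, -⟩ := hT
        have hd' : c' d = y (k + 1 - 3) := hd
        have ha' : c' a = y (k + 1 - 1) := ha
        have hlt : a ≤ 6 ∧ d ≤ 6 := by
          unfold Fk5 at hf
          omega
        have na : a = j0 := by
          by_contra hcon
          have := hj0 a (by omega) hcon
          rw [ha'] at this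
          exact (hout (k + 1 - 1) (by omega) (by omega)).2 this
        have nd : d = j0 := by
          by_contra hcon
          have := hj0 d (by omega) hcon
          rw [hd'] at this
          exact (hout (k + 1 - 3) (by omega) (by omega)).2 this
        have : y (k + 1 - 3) = y (k + 1 - 1) := by rw [← hd', ← ha', na, nd]
        have := h.injy _ _ (by omega) (by omega) (by omega) (by omega) this
        omega
    · -- counting
      have c0 := fp_sum_le hG h (r := 5) (by omega) hcat
      have own5 : 5 ≤ ((range (m + 2)).filter (fun j => InC 5 x y (c j))).card := by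
        let g : ℕ → ℕ := fun i => if hi : 1 ≤ i ∧ i ≤ 5 then (s i hi.1 hi.2).choose else 0
        have gx : ∀ i, 1 ≤ i → i ≤ 5 → g i ≤ m + 1 ∧ c (g i) = x i := by
          intro i i1 i2
          simp only [g, dif_pos (show 1 ≤ i ∧ i ≤ 5 from ⟨i1, i2⟩)]
          exact (s i i1 i2).choose_spec
        have : (Icc 1 5).card ≤ ((range (m + 2)).filter (fun j => InC 5 x y (c j))).card := by
          refine Finset.card_le_card_of_injOn g ?_ ?_
          · intro i hi
            rw [mem_coe, mem_Icc] at hi
            obtain ⟨g1, g2⟩ := gx i hi.1 hi.2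
            rw [mem_coe, mem_filter, mem_range]
            exact ⟨by omega, i, hi.1, hi.2, Or.inl g2⟩
          · intro i hi j hj hij
            rw [mem_coe, mem_Icc] at hi hj
            have e1 := (gx i hi.1 hi.2).2
            have e2 := (gx j hj.1 hj.2).2
            rw [hij] at e1
            exact h.injx i j hi.1 (by omega) hj.1 (by omega) (e1.symm.trans e2)
        rw [Nat.card_Icc] at this
        omega
      have c1 : m' + 1 ≤ ((range (m' + 2)).erase j0).card := by
        by_cases hj : j0 ∈ range (m' + 2)
        · rw [Finset.card_erase_of_mem hj, card_range]; omega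
        · rw [Finset.erase_eq_of_notMem hj, card_range]; omega
      have c2 : (range (m' + 2)).erase j0 ⊆ (range (m' + 2)).filter (fun j => InC 5 x y (c' j)) := by
        intro j hj
        rw [mem_erase, mem_range] at hj
        rw [mem_filter, mem_range]
        exact ⟨hj.2, hj0 j (by omega) hj.1⟩
      have c3 := Finset.card_le_card c2
      have c4 := win_see (r := 5) (x := x) (y := y) c' (m' + 2)
      have c5 : ∑ i ∈ Icc 1 5, (((range (m' + 2)).filter (fun j => c' j = x i)).card +
          ((range (m' + 2)).filter (fun j => c' j = y i)).card) ≤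
          ∑ i ∈ Icc 1 5, (fp G R m z (x i) + fp G R m z (y i)) :=
        Finset.sum_le_sum fun i _ => Nat.add_le_add
          (CLB.H80.see_card hC (E := cSupp m z)
            (fun i h1 h2 => CLB.H80.not_mem_supp hcat hC hne h1 h2) (x i))
          (CLB.H80.see_card hC (E := cSupp m z)
            (fun i h1 h2 => CLB.H80.not_mem_supp hcat hC hne h1 h2) (y i))
      omega
  · have hF := noFull_small hG hc hC (show m' ≤ 4 by omega)
    obtain ⟨hinj, -⟩ := noFull_inj hG h hC hF
    have su : ∀ {l l' u : ℕ}, l ≤ m' + 1 → l' ≤ m' + 1 → 1 ≤ u → u ≤ k →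
        (c' l = x u ∨ c' l = y u) → (c' l' = x u ∨ c' l' = y u) → l = l' :=
      fun hl hl' u1 u2 e e' => same_unit h hF hinj hl hl' u1 u2 e e'
    rcases loc_le4 hG hc h hk3 hends hC hm (by omega) hNk with ⟨a, b, hS⟩ | ⟨-, hA⟩ | ⟨hm2, hA⟩
    · have ha := five a b hS
      subst ha
      have hab := hS.ab
      have hcd := sp_cardf h hS
      -- the ports of the window
      have key : ∀ l, l ≤ m' + 1 → InC 5 x y (c' l) → ∃ u, 1 ≤ u ∧ u ≤ 5 ∧ (c' l = x u ∨ c' l = y u) ∧
          (u ≠ 1 → k + 1 ≤ u + b) := by
        intro l hl hin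
        obtain ⟨u, u1, u2, u3⟩ := hin
        refine ⟨u, u1, u2, u3, fun hu => ?_⟩
        rcases hS.all l hl ⟨u, u1, by omega, u3⟩ with ⟨v, v1, v2, v3⟩ | ⟨v, v1, v2, v3⟩
        · exfalso
          rcases u3 with u3 | u3
          · have := h.injx u v u1 (by omega) v1 (by omega) (u3.symm.trans v3)
            omega
          · exact h.xy v u v1 (by omega) u1 (by omega) (v3.symm.trans u3)
        · rcases u3 with u3 | u3
          · exact absurd (u3.symm.trans v3) (h.xy u v u1 (by omega) (by omega) v1)
          · have := h.injy u v u1 (by omega) (by omega) v1 (u3.symm.trans v3)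
            omega
      have hm' : m' = 2 ∨ m' = 3 ∨ m' = 4 := by omega
      rcases hm' with rfl | rfl | rfl
      · have P : ∀ j ≤ 2 + 1, (j ≤ 1 ∧ pos 2 j = 1) ∨ (2 ≤ j ∧ pos 2 j = 2) := by
          intro j hj
          unfold pos
          split_ifs <;> omega
        obtain ⟨hl, hrr⟩ := ncp_forks hN
        obtain ⟨o, ho, hoJ⟩ : ∃ o ≤ 1, InC 5 x y (c' o) := by
          rcases hl with h1 | h1
          · exact ⟨0, by omega, h1⟩
          · exact ⟨1, le_rfl, h1⟩
        obtain ⟨q, hq, hq', hqJ⟩ : ∃ q, 2 ≤ q ∧ q ≤ 3 ∧ InC 5 x y (c' q) := by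
          rcases hrr with h1 | h1
          · exact ⟨2, by omega, by omega, h1⟩
          · exact ⟨3, by omega, by omega, h1⟩
        obtain ⟨u, u1, u2, u3, u4⟩ := key o (by omega) hoJ
        obtain ⟨v, v1, v2, v3, v4⟩ := key q (by omega) hqJ
        have par := port_par h hC (show o ≤ 2 + 1 by omega) (show q ≤ 2 + 1 by omega) ⟨u1, by omega⟩
          ⟨v1, by omega⟩ u3 v3
        have p1 := P o (by omega)
        have p2 := P q (by omega)
        have hb : k + 1 ≤ 5 + b := by
          by_cases hu : u = 1
          · have := v4 (by omega)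
            omega
          · have := u4 hu
            omega
        -- the ports `x 1`, `y 5`, `y 7`
        obtain ⟨j1, hj1, e1⟩ := hS.px 1 le_rfl le_rfl
        obtain ⟨j5, hj5, e5⟩ := hS.py 5 (by omega) hb
        obtain ⟨j6, hj6, e6⟩ := hS.py 6 (by omega) (by omega)
        obtain ⟨j7, hj7, e7⟩ := hS.py 7 (by omega) (by omega)
        have r1 := port_par h hC hj1 hj5 (u := 1) (v := 5) ⟨le_rfl, by omega⟩ ⟨by omega, by omega⟩
          (Or.inl e1) (Or.inr e5)
        have r2 := port_par h hC hj1 hj7 (u := 1) (v := 7) ⟨le_rfl, by omega⟩ ⟨by omega, by omega⟩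
          (Or.inl e1) (Or.inr e7)
        have n1 : j1 ≠ j5 := by
          rintro rfl
          exact h.xy 1 5 le_rfl (by omega) (by omega) (by omega) (e1.symm.trans e5)
        have n2 : j1 ≠ j7 := by
          rintro rfl
          exact h.xy 1 7 le_rfl (by omega) (by omega) (by omega) (e1.symm.trans e7)
        have n3 : j5 ≠ j7 := by
          rintro rfl
          have := h.injy 5 7 (by omega) (by omega) (by omega) (by omega) (e5.symm.trans e7)
          omega
        have q1 := P j1 hj1
        have q5 := P j5 hj5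
        have q7 := P j7 hj7
        clear P key su hcd u3 v3 u4 v4
        omega
      · obtain ⟨p, q, r', hp, hq, hr', npq, nqr, npr, hpJ, hqJ, hrJ⟩ := ncp_three hN
        have P1 : ∀ j, (j = 0 ∨ j = 1 ∨ j = 3 ∨ j = 4) → j ≤ 3 + 1 ∧ pos 3 j % 2 = 1 := by
          intro j hj
          unfold pos
          split_ifs
          all_goals omega
        obtain ⟨p1, p2⟩ := P1 p hp
        obtain ⟨q1, q2⟩ := P1 q hq
        obtain ⟨r1, r2⟩ := P1 r' hr'
        obtain ⟨u, u1, u2, u3, u4⟩ := key p p1 hpJ
        obtain ⟨v, v1, v2, v3, v4⟩ := key q q1 hqJ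
        obtain ⟨w, w1, w2, w3, w4⟩ := key r' r1 hrJ
        have a1 := port_par h hC p1 q1 ⟨u1, by omega⟩ ⟨v1, by omega⟩ u3 v3
        have a2 := port_par h hC p1 r1 ⟨u1, by omega⟩ ⟨w1, by omega⟩ u3 w3
        have nuv : u ≠ v := by
          rintro rfl; exact npq (su p1 q1 u1 (by omega) u3 v3)
        have nuw : u ≠ w := by
          rintro rfl; exact npr (su p1 r1 u1 (by omega) u3 w3)
        have nvw : v ≠ w := by
          rintro rfl; exact nqr (su q1 r1 v1 (by omega) v3 w3)
        have h3 : u = 3 ∨ v = 3 ∨ w = 3 := by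
          clear hp hq hr' P1
          omega
        have hb : k + 1 ≤ 3 + b := by
          rcases h3 with rfl | rfl | rfl
          · exact u4 (by omega)
          · exact v4 (by omega)
          · exact w4 (by omega)
        omega
      · obtain ⟨p, p', q, q', hp, hp', hq, hq', ep, ep', eq, eq', npp, nqq, hpJ, hpJ', hqJ, hqJ'⟩ :
            ∃ p p' q q' : ℕ, p ≤ 4 + 1 ∧ p' ≤ 4 + 1 ∧ q ≤ 4 + 1 ∧ q' ≤ 4 + 1 ∧ pos 4 p % 2 = 1 ∧
              pos 4 p' % 2 = 1 ∧ pos 4 q % 2 = 0 ∧ pos 4 q' % 2 = 0 ∧ p ≠ p' ∧ q ≠ q' ∧
              InC 5 x y (c' p) ∧ InC 5 x y (c' p') ∧ InC 5 x y (c' q) ∧ InC 5 x y (c' q') := by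
          rcases ncp_abc hN with ⟨a, b, d, e⟩ | ⟨a, b, d, e, g⟩ | ⟨a, b, d, e, g⟩
          · exact ⟨0, 1, 4, 5, by omega, by omega, by omega, by omega, by decide, by decide, by decide,
              by decide, by omega, by omega, a, b, d, e⟩
          · rcases g with g | g
            · exact ⟨0, 1, 2, 4, by omega, by omega, by omega, by omega, by decide, by decide, by decide,
                by decide, by omega, by omega, a, b, d, g⟩
            · exact ⟨0, 1, 2, 5, by omega, by omega, by omega, by omega, by decide, by decide, by decide,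
                by decide, by omega, by omega, a, b, d, g⟩
          · rcases g with g | g
            · exact ⟨0, 3, 4, 5, by omega, by omega, by omega, by omega, by decide, by decide, by decide,
                by decide, by omega, by omega, g, e, a, b⟩
            · exact ⟨1, 3, 4, 5, by omega, by omega, by omega, by omega, by decide, by decide, by decide,
                by decide, by omega, by omega, g, e, a, b⟩
        obtain ⟨u, u1, u2, u3, u4⟩ := key p hp hpJ
        obtain ⟨u', u1', u2', u3', u4'⟩ := key p' hp' hpJ'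
        obtain ⟨v, v1, v2, v3, v4⟩ := key q hq hqJ
        obtain ⟨v', v1', v2', v3', v4'⟩ := key q' hq' hqJ'
        have a1 := port_par h hC hp hp' ⟨u1, by omega⟩ ⟨u1', by omega⟩ u3 u3'
        have a2 := port_par h hC hp hq ⟨u1, by omega⟩ ⟨v1, by omega⟩ u3 v3
        have a3 := port_par h hC hp hq' ⟨u1, by omega⟩ ⟨v1', by omega⟩ u3 v3'
        have nu : u ≠ u' := by
          rintro rfl; exact npp (su hp hp' u1 (by omega) u3 u3')
        have nv : v ≠ v' := by
          rintro rfl; exact nqq (su hq hq' v1 (by omega) v3 v3')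
        have h2 : u = 2 ∨ u' = 2 ∨ v = 2 ∨ v' = 2 := by omega
        have hb : k + 1 ≤ 2 + b := by
          rcases h2 with rfl | rfl | rfl | rfl
          · exact u4 (by omega)
          · exact u4' (by omega)
          · exact v4 (by omega)
          · exact v4' (by omega)
        omega
    · obtain ⟨a, b, hab, ea, eb, -⟩ := hA
      rcases hab with hab | hab
      · exact own 2 le_rfl (by omega) b (by omega) eb
      · exact own 2 le_rfl (by omega) b (by omega) eb
    · subst hm2
      obtain ⟨a, b, hab, ea, eb, hall⟩ := hA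
      obtain ⟨hl, -⟩ := ncp_forks hN
      have no : ∀ j ≤ 3, ¬ InC 5 x y (c' j) := by
        intro j hj hin
        by_cases ja : j = a
        · subst ja
          rw [ea] at hin
          exact (hout k (by omega) le_rfl).2 hin
        · by_cases jb : j = b
          · subst jb
            rw [eb] at hin
            exact (hout (k - 1) (by omega) (by omega)).2 hin
          · exact hall j hj ja jb (mono _ hin)
      rcases hl with h1 | h1
      · exact no 0 (by omega) h1
      · exact no 1 (by omega) h1

end CLB.H62
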