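import Pool.Agent.Helper62_DA.CleanF
import Pool.Agent.Helper95_CLB.StaM

/-!
The windows at the left end are clean up to the exceptional components.
-/

set_option autoImplicit false
set_option linter.unusedSectionVars false

namespace CLB.H62

open Finset Classical CLB.H95
open H3DA (Q neg nr)
open CLB.H3 (Cat pos NoFull noFull_inj noFull_small)
open CLB.H80 (same_unit port_mem own_lk ncp_miss ncp_mono fp_sum_le win_see clean_end' Tern)
open CLB.H91 (LM ncp_forks)

variable {V : Type*} {G : SimpleGraph V} {R : V → Bool} [Fintype V] {k : ℕ} {x y : ℕ → V}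
  {m m' n : ℕ} {z c z' c' : ℕ → V}

lemma tern_trn (h : Tern x n y m' c') : 3 ≤ n ∧ Trn n x y m' c' := by
  obtain ⟨hm, hr, o, o', q, q', h1, h2, h3, e1, e2, e3, e4⟩ := h
  subst hm
  have key : ∀ o o', LM 2 o o' → o ≤ 3 ∧ o' ≤ 3 ∧ o ≠ o' ∧ cl 2 o = cl 2 o' ∧ pos 2 o = cl 2 o := by
    intro o o' h
    rcases h with ⟨rfl, rfl⟩ | ⟨rfl, rfl⟩ | ⟨rfl, rfl⟩ | ⟨rfl, rfl⟩ <;> decide
  obtain ⟨a1, a2, a3, a4, a5⟩ := key o o' h1
  obtain ⟨b1, b2, b3, b4, b5⟩ := key q q' h2
  exact ⟨hr, rfl, o, o', q, q', a1, a2, b1, b2, a3, b3, a4, b4, by rw [← a5, ← b5]; exact h3, e1, e2,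
    e3, e4⟩

/-- **Windows of length at most four.** -/
theorem endClean_of (hG : ClassC G R) (hc : Crit G R) (h : Chn G R k x y)
    (hends : (∀ w, ¬ Lk G R (x 1) w) ∧ ∀ w, ¬ Lk G R (y k) w) (hcat : Cat G R m z c)
    (hnk : (n ≤ 3 ∧ 5 ≤ k) ∨ (n ≤ 4 ∧ 7 ≤ k))
    (hown : 2 * n ≤ 4 + ((range (m + 2)).filter (fun j => InC n x y (c j))).card) :
    EndClean G R n x y m z := by
  intro m' z' c' hC hne _
  obtain ⟨e1, e2⟩ := clean_end' hG hc h hends hcat (r := n) (by omega) hnk hown hC hne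
  refine ⟨e1, fun hm => ?_⟩
  rcases e2 hm with h1 | h1 | h1
  · by_cases hn : 2 ≤ n
    · exact Or.inr (Or.inl ⟨hn, h1⟩)
    · left
      intro hN
      obtain ⟨rfl, a, b, ha, hb, na, nb, hab⟩ := h1
      have hx2 : ¬ InC n x y (x 2) := by
        rintro ⟨i, i1, i2, i3 | i3⟩
        · have := h.injx 2 i (by omega) (by omega) i1 (by omega) i3
          omega
        · exact h.xy 2 i (by omega) (by omega) i1 (by omega) i3
      obtain ⟨f1, f2⟩ := ncp_forks hN
      rcases hab with ⟨-, hab⟩ | ⟨hab, -⟩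
      · rcases hb with rfl | rfl <;> rcases f2 with f2 | f2
        · rw [hab] at f2; exact hx2 f2
        · exact nb f2
        · exact nb f2
        · have f2' : InC n x y (c' 3) := f2
          rw [hab] at f2'; exact hx2 f2'
      · rcases ha with rfl | rfl <;> rcases f1 with f1 | f1
        · rw [hab] at f1; exact hx2 f1
        · exact na f1
        · exact na f1
        · have f1' : InC n x y (c' 1) := f1
          rw [hab] at f1'; exact hx2 f1'
  · exact Or.inr (Or.inr (Or.inl (tern_trn h1)))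
  · exact Or.inl h1

/-- **Windows of length at most two next to a full second unit.** -/
theorem endClean_two (hG : ClassC G R) (hc : Crit G R) (h : Chn G R k x y)
    (hcat : Cat G R m z c) (hn : n ≤ 2) (hk : 4 ≤ k) (sx : ∃ j ≤ m + 1, c j = x 2)
    (sy : ∃ j ≤ m + 1, c j = y 2) : EndClean G R n x y m z := by
  intro m' z' c' hC hne _
  -- the ports in the window
  have key : ∀ l ≤ m' + 1, InC n x y (c' l) → c' l = x 1 ∨ c' l = y 1 := by
    intro l hl hin
    obtain ⟨i, i1, i2, i3⟩ := hin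
    have hi : i = 1 ∨ i = 2 := by omega
    rcases hi with rfl | rfl
    · exact i3
    · exfalso
      rcases i3 with i3 | i3
      · obtain ⟨j, hj, e⟩ := sx
        exact hne (own_lk hG hcat hC (h.lk 1 le_rfl (by omega)).symm hj hl e i3)
      · obtain ⟨j, hj, e⟩ := sy
        exact hne (own_lk hG hcat hC (h.lk 2 (by omega) (by omega)) hj hl e i3)
  have one : m' ≤ 4 → ∀ i j, i ≤ m' + 1 → j ≤ m' + 1 → InC n x y (c' i) → InC n x y (c' j) → i = j := by
    intro hm i j hi hj hin hjn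
    have hF := noFull_small hG hc hC hm
    obtain ⟨hinj, -⟩ := noFull_inj hG h hC hF
    exact same_unit h hF hinj hi hj (u := 1) le_rfl (by omega) (key i hi hin) (key j hj hjn)
  refine ⟨fun hm i j hi hj hin hjn => one (by omega) i j (by omega) (by omega) hin hjn, fun hm => ?_⟩
  left
  intro hN
  rcases Nat.lt_or_ge m' 5 with h5 | h5
  · obtain ⟨f1, f2⟩ := ncp_forks hN
    obtain ⟨i, hi, hin⟩ : ∃ i ≤ 1, InC n x y (c' i) := by
      rcases f1 with f | f
      · exact ⟨0, by omega, f⟩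
      · exact ⟨1, le_rfl, f⟩
    obtain ⟨j, hj, hj', hjn⟩ : ∃ j, m' ≤ j ∧ j ≤ m' + 1 ∧ InC n x y (c' j) := by
      rcases f2 with f | f
      · exact ⟨m', le_rfl, by omega, f⟩
      · exact ⟨m' + 1, by omega, le_rfl, f⟩
    have := one (by omega) i j (by omega) hj' hin hjn
    omega
  · obtain ⟨j0, hj0⟩ := ncp_miss h5 hN
    have c0 := fp_sum_le hG h (r := n) (by omega) hcat
    have c1 : m' + 1 ≤ ((range (m' + 2)).erase j0).card := by
      by_cases hj : j0 ∈ range (m' + 2)
      · rw [Finset.card_erase_of_mem hj, card_range]; omega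
      · rw [Finset.erase_eq_of_notMem hj, card_range]; omega
    have c2 : (range (m' + 2)).erase j0 ⊆ (range (m' + 2)).filter (fun j => InC n x y (c' j)) := by
      intro j hj
      rw [mem_erase, mem_range] at hj
      rw [mem_filter, mem_range]
      exact ⟨hj.2, hj0 j (by omega) hj.1⟩
    have c3 := Finset.card_le_card c2
    have c4 := win_see (r := n) (x := x) (y := y) c' (m' + 2)
    have c5 : ∑ i ∈ Icc 1 n, (((range (m' + 2)).filter (fun j => c' j = x i)).card +
        ((range (m' + 2)).filter (fun j => c' j = y i)).card) ≤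
        ∑ i ∈ Icc 1 n, (fp G R m z (x i) + fp G R m z (y i)) :=
      Finset.sum_le_sum fun i _ => Nat.add_le_add
        (CLB.H80.see_card hC (E := cSupp m z)
          (fun i h1 h2 => CLB.H80.not_mem_supp hcat hC hne h1 h2) (x i))
        (CLB.H80.see_card hC (E := cSupp m z)
          (fun i h1 h2 => CLB.H80.not_mem_supp hcat hC hne h1 h2) (y i))
    omega

/-- **The window of five units.** -/
theorem endClean_five (hG : ClassC G R) (hc : Crit G R) (h : Chn G R k x y) (hk : 7 ≤ k)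
    (hends : (∀ w, ¬ Lk G R (x 1) w) ∧ ∀ w, ¬ Lk G R (y k) w) (hcat : Cat G R m z c)
    (s : ∀ i, 1 ≤ i → i ≤ 5 → ∃ j ≤ m + 1, c j = x i)
    (h5 : ∀ z' c' : ℕ → V, Cat G R 5 z' c' → NCp 5 (JC k x y c') → (∃ a b, Sp k x y 5 c' a b) ∨
      T5 k x y 5 c' ∨ T5 k (fun i => y (k + 1 - i)) (fun i => x (k + 1 - i)) 5 c') :
    EndClean G R 5 x y m z := by
  intro m' z' c' hC hne _
  obtain ⟨e1, e2⟩ := clean_five hG hc h hk hends hcat s h5 hC hne
  exact ⟨e1, fun hm => Or.inl (e2 hm)⟩

end CLB.H62
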