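import Pool.Agent.Helper62_DA.LawE
import Pool.Agent.Helper3_DA.FLemma

/-!
An isolated full unit of a nearly closed caterpillar shares an unseen neighbour.
-/

set_option autoImplicit false
set_option linter.unusedSectionVars false

namespace CLB.H62

open Finset Classical
open CLB.H95
open H3DA (Q neg nr)
open CLB.H3 (CExt Cat IsTwo pos rstar sX sO mem_sX mem_sO seen_mem seen_card mmS full_leaf)

variable {V : Type*} {G : SimpleGraph V} {R : V → Bool} [Fintype V] {k : ℕ} {x y : ℕ → V}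
  {m : ℕ} {z c : ℕ → V}

/-- A caterpillar all of whose ports but one are single ports at a chain. -/
structure Cf (G : SimpleGraph V) (R : V → Bool) (k : ℕ) (x y : ℕ → V) (m : ℕ) (z c : ℕ → V) :
    Prop where
  hG : ClassC G R
  hc : Crit G R
  h : Chn G R k x y
  hcat : Cat G R m z c
  hk : 2 ≤ k
  hm : 6 ≤ m
  uniq : ∀ i j, i ≤ m + 1 → j ≤ m + 1 → InC k x y (c i) → c i = c j → i = j
  out : ∀ i j, i ≤ m + 1 → j ≤ m + 1 → ¬ InC k x y (c i) → ¬ InC k x y (c j) → i = j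

namespace Cf

lemma far (C : Cf G R k x y m z c) {i j : ℕ} (hi : i ≤ m + 1) (hj : j ≤ m + 1)
    (hme : Me G R (c i) (c j)) : pos m i + 4 ≤ pos m j ∨ pos m j + 4 ≤ pos m i :=
  mate_pos C.hG C.hc C.hcat (by have := C.hm; omega) hi hj hme

lemma inC_mate (C : Cf G R k x y m z c) {s t : V} (hs : InC k x y s) (hm : Me G R s t) :
    ∃ u, 1 ≤ u ∧ u ≤ k ∧ ((s = x u ∧ t = y u) ∨ (s = y u ∧ t = x u)) := by
  obtain ⟨u, h1, h2, h3⟩ := hs
  refine ⟨u, h1, h2, ?_⟩
  have hme := C.h.me u h1 h2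
  rcases h3 with rfl | rfl
  · exact Or.inl ⟨rfl, C.hG.matching hm hme⟩
  · exact Or.inr ⟨rfl, C.hG.matching hm hme.symm⟩

lemma mates (C : Cf G R k x y m z c) {i j : ℕ} (hi : i ≤ m + 1) (hj : j ≤ m + 1)
    (hme : Me G R (c i) (c j)) :
    ∃ u, 1 ≤ u ∧ u ≤ k ∧ ((c i = x u ∧ c j = y u) ∨ (c i = y u ∧ c j = x u)) := by
  by_cases h1 : InC k x y (c i)
  · exact C.inC_mate h1 hme
  · by_cases h2 : InC k x y (c j)
    · obtain ⟨u, a1, a2, a3⟩ := C.inC_mate h2 hme.symm
      exact ⟨u, a1, a2, a3.elim (fun e => Or.inr ⟨e.2, e.1⟩) (fun e => Or.inl ⟨e.2, e.1⟩)⟩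
    · have := C.out i j hi hj h1 h2
      subst this
      exact absurd rfl hme.1.ne

lemma leaf (C : Cf G R k x y m z c) {i j : ℕ} (hi : i ≤ m + 1) (hj : j ≤ m + 1)
    (hme : Me G R (c i) (c j)) : pos m i = 1 ∨ pos m i = m ∨ pos m j = 1 ∨ pos m j = m := by
  have key : ∀ i j u, i ≤ m + 1 → j ≤ m + 1 → 1 ≤ u → u ≤ k → c i = x u → c j = y u →
      pos m i = 1 ∨ pos m i = m ∨ pos m j = 1 ∨ pos m j = m := by
    intro i j u hi hj h1 h2 ei ej
    by_contra hcon
    push Not at hcon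
    have hme := C.h.me u h1 h2
    rw [← ei, ← ej] at hme
    have hpi : 2 ≤ i ∧ i + 1 ≤ m := by
      obtain ⟨b1, b2, -, -⟩ := hcon
      have := C.hm
      unfold pos at b1 b2
      split_ifs at b1 b2 <;> omega
    have hpj : 2 ≤ j ∧ j + 1 ≤ m := by
      obtain ⟨-, -, b1, b2⟩ := hcon
      have := C.hm
      unfold pos at b1 b2
      split_ifs at b1 b2 <;> omega
    have hin : ∀ l ≤ m + 1, (c l = c i ∨ c l = c j) → 2 ≤ l ∧ l + 1 ≤ m := by
      intro l hl h3
      rcases h3 with h3 | h3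
      · have := C.uniq i l hi hl (by rw [ei]; exact InC.x h1 h2) h3.symm
        omega
      · have := C.uniq j l hj hl (by rw [ej]; exact InC.y h1 h2) h3.symm
        omega
    by_cases huk : u < k
    · have hl := C.h.lk u h1 huk
      rw [← ej] at hl
      exact full_leaf C.hG C.hc C.hcat hj hi hme.symm hl (fun l hl h3 => hin l hl h3.symm)
    · have hk := C.hk
      have hl := (C.h.lk (u - 1) (by omega) (by omega)).symm
      rw [show u - 1 + 1 = u by omega, ← ei] at hl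
      exact full_leaf C.hG C.hc C.hcat hi hj hme hl hin
  obtain ⟨u, h1, h2, h3 | h3⟩ := C.mates hi hj hme
  · exact key i j u hi hj h1 h2 h3.1 h3.2
  · have := key j i u hj hi h1 h2 h3.2 h3.1
    tauto

lemma ux (C : Cf G R k x y m z c) {i j u : ℕ} (hi : i ≤ m + 1) (hj : j ≤ m + 1) (h1 : 1 ≤ u)
    (h2 : u ≤ k) (ei : c i = x u) (ej : c j = x u) : i = j :=
  C.uniq i j hi hj (by rw [ei]; exact InC.x h1 h2) (ei.trans ej.symm)

lemma uy (C : Cf G R k x y m z c) {i j u : ℕ} (hi : i ≤ m + 1) (hj : j ≤ m + 1) (h1 : 1 ≤ u)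
    (h2 : u ≤ k) (ei : c i = y u) (ej : c j = y u) : i = j :=
  C.uniq i j hi hj (by rw [ei]; exact InC.y h1 h2) (ei.trans ej.symm)

/-- Units of ports at the same position. -/
lemma par (C : Cf G R k x y m z c) {i j u v : ℕ} (hi : i ≤ m + 1) (hj : j ≤ m + 1)
    (hu : 1 ≤ u ∧ u ≤ k) (hv : 1 ≤ v ∧ v ≤ k) (hcu : c i = x u ∨ c i = y u)
    (hcv : c j = x v ∨ c j = y v) (hp : pos m i = pos m j) : u % 2 = v % 2 := by
  have := port_par C.h C.hcat hi hj hu hv hcu hcv
  omega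

end Cf

/-- An isolated full unit with the leaf `y v` at the end `z m`. -/
structure Iv (k : ℕ) (x y : ℕ → V) (m : ℕ) (c : ℕ → V) (v a b : ℕ) : Prop where
  hv : 2 ≤ v
  hv' : v + 1 ≤ k
  hb : b ≤ m + 1
  cb : c b = y v
  pb : pos m b = m
  ha : a ≤ m + 1
  ca : c a = x v
  u1x : ∀ j ≤ m + 1, c j ≠ x (v - 1)
  u1y : ∀ j ≤ m + 1, c j ≠ y (v - 1)
  u2x : ∀ j ≤ m + 1, c j ≠ x (v + 1)
  u2y : ∀ j ≤ m + 1, c j ≠ y (v + 1)
  s1 : ∀ j ≤ m + 1, 3 ≤ v → c j ≠ y (v - 2)
  s2 : ∀ j ≤ m + 1, v + 2 ≤ k → c j ≠ x (v + 2)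

namespace Iv

variable {v a b : ℕ}

lemma pa (C : Cf G R k x y m z c) (I : Iv k x y m c v a b) : pos m a + 4 ≤ m ∧ 1 ≤ pos m a := by
  have hme := C.h.me v (by have := I.hv; omega) (by have := I.hv'; omega)
  rw [← I.ca, ← I.cb] at hme
  have h1 := C.far I.ha I.hb hme
  rw [I.pb] at h1
  have h2 := pos_mem (m := m) (by have := C.hm; omega) I.ha
  omega

/-- The right end is closed except for `v + 1`. -/
lemma tclo (C : Cf G R k x y m z c) (I : Iv k x y m c v a b) {r : ℕ} (hr : m ≤ r + 3) (hrm : r ≤ m) :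
    Clo k x y c (SL m r m) {v + 1} := by
  have hm := C.hm
  have hv := I.hv
  have hv' := I.hv'
  refine clo C.hG C.h C.hcat (p := r) (q := m) (by omega) hrm le_rfl (fun j hj => mem_SL.1 hj) ?_ ?_ ?_
  · intro i hi j hj hme
    rw [mem_SL] at hi hj
    have := C.far hi.1 hj.1 hme
    omega
  · intro e he
    rw [mem_singleton] at he
    subst he
    refine ⟨by omega, by omega, fun j hj => ?_, Or.inl ⟨b, ?_, by omega, ?_⟩⟩
    · rw [mem_SL] at hj
      exact ⟨I.u2x j hj.1, I.u2y j hj.1⟩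
    · rw [mem_SL, I.pb]
      exact ⟨I.hb, by omega, le_rfl⟩
    · rw [Nat.add_sub_cancel]
      exact I.cb
  · rw [SL_card_right (by omega) hrm, card_singleton]

lemma tx (C : Cf G R k x y m z c) (I : Iv k x y m c v a b) {r : ℕ} (hr : m ≤ r + 3) (hrm : r ≤ m)
    {i u : ℕ} (hu : 1 ≤ u) (hui : u ≤ i) (hik : i ≤ k) (hi : ∃ j ∈ SL m r m, c j = x i) :
    ∃ j ∈ SL m r m, c j = x u := by
  have hC := I.tclo C hr hrm
  have hv := I.hv
  by_cases h : v + 2 ≤ i ∧ u ≤ v + 1
  · obtain ⟨j, hj, e⟩ := hC.desc (u := v + 2) (by omega) h.1 hik hi (fun e he h1 h2 => by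
      rw [mem_singleton] at he
      omega)
    exact absurd e (I.s2 j (mem_SL.1 hj).1 (by omega))
  · refine hC.desc hu hui hik hi (fun e he h1 h2 => ?_)
    rw [mem_singleton] at he
    omega

lemma ty (C : Cf G R k x y m z c) (I : Iv k x y m c v a b) {r : ℕ} (hr : m ≤ r + 3) (hrm : r ≤ m)
    {i u : ℕ} (hi1 : 1 ≤ i) (hiu : i ≤ u) (huk : u ≤ k) (hi : ∃ j ∈ SL m r m, c j = y i)
    (hv : u ≤ v ∨ v < i) : ∃ j ∈ SL m r m, c j = y u := by
  have hC := I.tclo C hr hrm
  refine hC.asc hi1 hiu huk hi (fun e he h1 h2 => ?_)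
  rw [mem_singleton] at he
  omega

/-- A port which is not the first one of a run. -/
lemma pick (C : Cf G R k x y m z c) (I : Iv k x y m c v a b) :
    ∃ t, m ≤ t + 3 ∧ t + 1 ≤ m ∧ ((∃ i, 2 ≤ i ∧ i ≤ k ∧ c t = x i) ∨
      (∃ i, 1 ≤ i ∧ i < k ∧ i ≠ v ∧ c t = y i)) := by
  by_contra hcon
  push Not at hcon
  have hm := C.hm
  have hv := I.hv
  have hv' := I.hv'
  have hbm : b = m ∨ b = m + 1 := by
    have h1 := I.pb
    have h2 := I.hb
    unfold pos at h1
    split_ifs at h1 <;> omega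
  obtain ⟨d, hd, hdb, hdm⟩ : ∃ d, (d = m ∨ d = m + 1) ∧ d ≠ b ∧ d ≤ m + 1 := by
    rcases hbm with h | h
    · exact ⟨m + 1, Or.inr rfl, by omega, le_rfl⟩
    · exact ⟨m, Or.inl rfl, by omega, by omega⟩
  have hpd : pos m d = m := by
    rcases hd with rfl | rfl
    · exact CLB.H3.pos_mid (by omega) le_rfl
    · exact CLB.H3.pos_last
  have hTm : ∀ j ∈ SL m m m, j = b ∨ j = d := by
    intro j hj
    rw [mem_SL] at hj
    obtain ⟨h1, h2, h3⟩ := hj
    have h4 : pos m j = m := by omega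
    unfold pos at h4
    split_ifs at h4 <;> omega
  have hdT : d ∈ SL m m m := by rw [mem_SL, hpd]; exact ⟨hdm, le_rfl, le_rfl⟩
  -- the classification
  have cl : ∀ s, s ≤ m + 1 → (m ≤ s + 3 ∧ s + 1 ≤ m ∨ s = d) → c s = x 1 ∨ c s = y k ∨ ¬ InC k x y (c s) := by
    intro s hs hs'
    by_cases hin : InC k x y (c s)
    · obtain ⟨i, h1, h2, h3⟩ := hin
      rcases hs' with hs' | rfl
      · have h4 := hcon s hs'.1 hs'.2
        rcases h3 with h3 | h3
        · by_cases h5 : i = 1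
          · left; rw [h3, h5]
          · exact absurd h3 (h4.1 i (by omega) h2)
        · by_cases h5 : i = k
          · right; left; rw [h3, h5]
          · by_cases h6 : i = v
            · exfalso
              have h7 := C.uy (i := s) (j := b) hs I.hb h1 h2 h3 (by rw [I.cb, h6])
              omega
            · exact absurd h3 (h4.2 i h1 (by omega) h6)
      · rcases h3 with h3 | h3
        · by_cases h5 : i = 1
          · left; rw [h3, h5]
          · exfalso
            obtain ⟨j, hj, e⟩ := I.tx C (r := m) (by omega) le_rfl (i := i) (u := i - 1) (by omega)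
              (by omega) h2 ⟨s, hdT, h3⟩
            rcases hTm j hj with rfl | rfl
            · exact C.h.xy _ _ (by omega) (by omega) (by omega) (by omega) (e.symm.trans I.cb)
            · have := C.h.injx _ _ (by omega) (by omega) h1 h2 (e.symm.trans h3)
              omega
        · by_cases h5 : i = k
          · right; left; rw [h3, h5]
          · exfalso
            have h6 : i ≠ v := by
              rintro rfl
              exact hdb (C.uy hdm I.hb h1 h2 h3 I.cb)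
            have hT := (I.tclo C (r := m) (by omega) le_rfl).fy s hdT i h1 (by omega) h3
            rcases hT with ⟨j, hj, e⟩ | h7
            · rcases hTm j hj with rfl | rfl
              · have h8 := C.h.injy _ _ (by omega) (by omega) (by omega) (by omega) (e.symm.trans I.cb)
                refine I.u1y s hs ?_
                rw [h3, show v - 1 = i by omega]
              · have := C.h.injy _ _ (by omega) (by omega) h1 h2 (e.symm.trans h3)
                omega
            · rw [mem_singleton] at h7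
              omega
    · exact Or.inr (Or.inr hin)
  -- four ports, three places
  have k1 := C.hk
  have g1 := cl (m - 3) (by omega) (Or.inl ⟨by omega, by omega⟩)
  have g2 := cl (m - 2) (by omega) (Or.inl ⟨by omega, by omega⟩)
  have g3 := cl (m - 1) (by omega) (Or.inl ⟨by omega, by omega⟩)
  have g4 := cl d hdm (Or.inr rfl)
  have nx : ∀ i j, i ≤ m + 1 → j ≤ m + 1 → i ≠ j → c i = x 1 → c j = x 1 → False :=
    fun i j hi hj hne h1 h2 => hne (C.ux hi hj le_rfl (by omega) h1 h2)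
  have ny : ∀ i j, i ≤ m + 1 → j ≤ m + 1 → i ≠ j → c i = y k → c j = y k → False :=
    fun i j hi hj hne h1 h2 => hne (C.uy hi hj (by omega) le_rfl h1 h2)
  have no : ∀ i j, i ≤ m + 1 → j ≤ m + 1 → i ≠ j → ¬ InC k x y (c i) → ¬ InC k x y (c j) → False :=
    fun i j hi hj hne h1 h2 => hne (C.out i j hi hj h1 h2)
  have hd' : m - 3 ≠ d ∧ m - 2 ≠ d ∧ m - 1 ≠ d := by omega
  have e12 : m - 3 ≠ m - 2 := by omega
  have e13 : m - 3 ≠ m - 1 := by omega
  have e23 : m - 2 ≠ m - 1 := by omega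
  have l1 : m - 3 ≤ m + 1 := by omega
  have l2 : m - 2 ≤ m + 1 := by omega
  have l3 : m - 1 ≤ m + 1 := by omega
  rcases g1 with g1 | g1 | g1 <;> rcases g2 with g2 | g2 | g2
  · exact nx _ _ l1 l2 e12 g1 g2
  · rcases g3 with g3 | g3 | g3
    · exact nx _ _ l1 l3 e13 g1 g3
    · exact ny _ _ l2 l3 e23 g2 g3
    · rcases g4 with g4 | g4 | g4
      · exact nx _ _ l1 hdm hd'.1 g1 g4
      · exact ny _ _ l2 hdm hd'.2.1 g2 g4
      · exact no _ _ l3 hdm hd'.2.2 g3 g4
  · rcases g3 with g3 | g3 | g3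
    · exact nx _ _ l1 l3 e13 g1 g3
    · rcases g4 with g4 | g4 | g4
      · exact nx _ _ l1 hdm hd'.1 g1 g4
      · exact ny _ _ l3 hdm hd'.2.2 g3 g4
      · exact no _ _ l2 hdm hd'.2.1 g2 g4
    · exact no _ _ l2 l3 e23 g2 g3
  · rcases g3 with g3 | g3 | g3
    · exact nx _ _ l2 l3 e23 g2 g3
    · exact ny _ _ l1 l3 e13 g1 g3
    · rcases g4 with g4 | g4 | g4
      · exact nx _ _ l2 hdm hd'.2.1 g2 g4
      · exact ny _ _ l1 hdm hd'.1 g1 g4
      · exact no _ _ l3 hdm hd'.2.2 g3 g4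
  · exact ny _ _ l1 l2 e12 g1 g2
  · rcases g3 with g3 | g3 | g3
    · rcases g4 with g4 | g4 | g4
      · exact nx _ _ l3 hdm hd'.2.2 g3 g4
      · exact ny _ _ l1 hdm hd'.1 g1 g4
      · exact no _ _ l2 hdm hd'.2.1 g2 g4
    · exact ny _ _ l1 l3 e13 g1 g3
    · exact no _ _ l2 l3 e23 g2 g3
  · rcases g3 with g3 | g3 | g3
    · exact nx _ _ l2 l3 e23 g2 g3
    · rcases g4 with g4 | g4 | g4
      · exact nx _ _ l2 hdm hd'.2.1 g2 g4
      · exact ny _ _ l3 hdm hd'.2.2 g3 g4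
      · exact no _ _ l1 hdm hd'.1 g1 g4
    · exact no _ _ l1 l3 e13 g1 g3
  · rcases g3 with g3 | g3 | g3
    · rcases g4 with g4 | g4 | g4
      · exact nx _ _ l3 hdm hd'.2.2 g3 g4
      · exact ny _ _ l2 hdm hd'.2.1 g2 g4
      · exact no _ _ l1 hdm hd'.1 g1 g4
    · exact ny _ _ l2 l3 e23 g2 g3
    · exact no _ _ l1 l3 e13 g1 g3
  · exact no _ _ l1 l2 e12 g1 g2

/-- A second open unit on the left of a port `t` at the right end. -/
structure Sec (k : ℕ) (x y : ℕ → V) (m : ℕ) (c : ℕ → V) (v t e : ℕ) : Prop where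
  t1 : m ≤ t + 3
  t2 : t + 1 ≤ m
  e1 : 1 ≤ e
  e2 : e ≤ k
  loc : (e + 1 < v ∧ ∀ u, 1 ≤ u → u ≤ k → (∃ i ∈ SL m 1 t, c i = x u) →
      (∃ i ∈ SL m 1 t, c i = y u) → e < u) ∨
    (v + 1 < e ∧ ∀ u, 1 ≤ u → u ≤ k → (∃ i ∈ SL m 1 t, c i = x u) →
      (∃ i ∈ SL m 1 t, c i = y u) → u < e)
  op : ∀ J : Finset ℕ, (∀ j ∈ J, j ∈ SL m 1 t) → t ∈ J → Opn k x y c J e ∨
    ∃ i, 1 ≤ i ∧ i < k ∧ (∃ j ∈ J, c j = y i) ∧ ∃ j ∈ J, c j = x (i + 1)

lemma exists_sec (C : Cf G R k x y m z c) (I : Iv k x y m c v a b) : ∃ t e, Sec k x y m c v t e := by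
  have hm := C.hm
  have hv := I.hv
  have hv' := I.hv'
  have hpa := I.pa C
  obtain ⟨t, t1, t2, ⟨i, i1, i2, hi⟩ | ⟨i, i1, i2, i3, hi⟩⟩ := I.pick C
  · have hpt : pos m t = t := CLB.H3.pos_mid (by omega) (by omega)
    have htT : t ∈ SL m t m := by rw [mem_SL, hpt]; omega
    have run : ∀ u, 1 ≤ u → u ≤ i → ∃ j ∈ SL m t m, c j = x u := fun u h1 h2 =>
      I.tx C t1 (by omega) h1 h2 i2 ⟨t, htT, hi⟩
    have a1 : i ≠ v - 1 := fun e => I.u1x t (by omega) (by rw [hi, e])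
    have a2 : ¬ (v - 1 ≤ i) := by
      intro hle
      obtain ⟨j, hj, e⟩ := run (v - 1) (by omega) hle
      exact I.u1x j (mem_SL.1 hj).1 e
    have hout : ∀ u, 1 ≤ u → u < i → ∀ j ∈ SL m 1 t, c j ≠ x u := by
      intro u h1 h2 j hj e
      obtain ⟨j', hj', e'⟩ := run u h1 (by omega)
      have h3 := C.ux (mem_SL.1 hj).1 (mem_SL.1 hj').1 h1 (by omega) e e'
      subst h3
      rw [mem_SL] at hj hj'
      have h4 : pos m j = t := by omega
      have h5 : j = t := by
        unfold pos at h4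
        split_ifs at h4 <;> omega
      subst h5
      have := C.h.injx _ _ h1 (by omega) (by omega) i2 (e.symm.trans hi)
      omega
    refine ⟨t, i - 1, t1, t2, by omega, by omega, Or.inl ⟨by omega, fun u h1 h2 hx _ => ?_⟩, ?_⟩
    · obtain ⟨j, hj, e⟩ := hx
      by_contra hcon
      exact hout u h1 (by omega) j hj e
    · intro J hJ htJ
      by_cases hy : ∃ j ∈ J, c j = y (i - 1)
      · right
        refine ⟨i - 1, by omega, by omega, hy, t, htJ, ?_⟩
        rw [show i - 1 + 1 = i by omega]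
        exact hi
      · left
        refine ⟨by omega, by omega, fun j hj => ⟨hout _ (by omega) (by omega) j (hJ j hj),
          fun e => hy ⟨j, hj, e⟩⟩, Or.inr ⟨t, htJ, by omega, ?_⟩⟩
        rw [show i - 1 + 1 = i by omega]
        exact hi
  · have hpt : pos m t = t := CLB.H3.pos_mid (by omega) (by omega)
    have htT : t ∈ SL m t m := by rw [mem_SL, hpt]; omega
    have a1 : i ≠ v - 1 := fun e => I.u1y t (by omega) (by rw [hi, e])
    have a2 : i ≠ v + 1 := fun e => I.u2y t (by omega) (by rw [hi, e])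
    have a3 : v + 2 ≤ i := by
      by_contra hcon
      obtain ⟨j, hj, e⟩ := I.ty C t1 (by omega) (i := i) (u := v - 1) i1 (by omega) (by omega)
        ⟨t, htT, hi⟩ (by omega)
      exact I.u1y j (mem_SL.1 hj).1 e
    have run : ∀ u, i ≤ u → u ≤ k → ∃ j ∈ SL m t m, c j = y u := fun u h1 h2 =>
      I.ty C t1 (by omega) i1 h1 h2 ⟨t, htT, hi⟩ (by omega)
    have hout : ∀ u, i < u → u ≤ k → ∀ j ∈ SL m 1 t, c j ≠ y u := by
      intro u h1 h2 j hj e
      obtain ⟨j', hj', e'⟩ := run u (by omega) h2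
      have h3 := C.uy (mem_SL.1 hj).1 (mem_SL.1 hj').1 (by omega) h2 e e'
      subst h3
      rw [mem_SL] at hj hj'
      have h4 : pos m j = t := by omega
      have h5 : j = t := by
        unfold pos at h4
        split_ifs at h4 <;> omega
      subst h5
      have := C.h.injy _ _ (by omega) h2 i1 (by omega) (e.symm.trans hi)
      omega
    refine ⟨t, i + 1, t1, t2, by omega, by omega, Or.inr ⟨by omega, fun u h1 h2 _ hy => ?_⟩, ?_⟩
    · obtain ⟨j, hj, e⟩ := hy
      by_contra hcon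
      exact hout u (by omega) h2 j hj e
    · intro J hJ htJ
      by_cases hx : ∃ j ∈ J, c j = x (i + 1)
      · exact Or.inr ⟨i, i1, i2, ⟨t, htJ, hi⟩, hx⟩
      · left
        refine ⟨by omega, by omega, fun j hj => ⟨fun e => hx ⟨j, hj, e⟩,
          hout _ (by omega) (by omega) j (hJ j hj)⟩, Or.inl ⟨t, htJ, by omega, ?_⟩⟩
        rw [Nat.add_sub_cancel]
        exact hi

end Iv

end CLB.H62
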