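import Pool.Agent.Helper62_DA.Iso

/-!
An isolated full unit of a nearly closed caterpillar shares an unseen neighbour: the count.
-/

set_option autoImplicit false
set_option linter.unusedSectionVars false

namespace CLB.H62

open Finset Classical
open CLB.H95
open H3DA (Q neg nr)
open CLB.H3 (CExt Cat IsTwo pos rstar sX sO mem_sX mem_sO seen_mem seen_card mmS full_leaf)

variable {V : Type*} {G : SimpleGraph V} {R : V → Bool} [Fintype V] {k : ℕ} {x y : ℕ → V}
  {m : ℕ} {z c : ℕ → V} {v a b t e : ℕ}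

lemma pos_t (ht : t + 1 ≤ m) (h1 : 1 ≤ t) : pos m t = t := CLB.H3.pos_mid h1 (by omega)

namespace Iv

lemma v_open (I : Iv k x y m c v a b) {J : Finset ℕ} (hJ : ∀ j ∈ J, j ≤ m + 1) (ha : a ∈ J) :
    Opn k x y c J (v - 1) := by
  have hv := I.hv
  have hv' := I.hv'
  refine ⟨by omega, by omega, fun j hj => ⟨I.u1x j (hJ j hj), I.u1y j (hJ j hj)⟩,
    Or.inr ⟨a, ha, by omega, ?_⟩⟩
  rw [show v - 1 + 1 = v by omega]
  exact I.ca

lemma e_open (C : Cf G R k x y m z c) (I : Iv k x y m c v a b) (S : Sec k x y m c v t e) {p q : ℕ}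
    (hp : 1 ≤ p) (hpq : p ≤ q) (hq : q ≤ m) {J : Finset ℕ}
    (hJ : ∀ j ∈ J, j ≤ m + 1 ∧ p ≤ pos m j ∧ pos m j ≤ q) (hJS : ∀ j ∈ J, j ∈ SL m 1 t)
    (hnm : ∀ i ∈ J, ∀ j ∈ J, ¬ Me G R (c i) (c j)) (ha : a ∈ J) (ht : t ∈ J)
    (hcard : (q - p) + 3 < J.card + 3) : Opn k x y c J e := by
  rcases S.op J hJS ht with h | ⟨i, i1, i2, hy, hx⟩
  · exact h
  exfalso
  have key := law_E C.hG C.h C.hcat hp hpq hq hJ hnm (E := {v - 1}) (fun e he => by
    rw [mem_singleton] at he
    subst he
    exact I.v_open (fun j hj => (hJ j hj).1) ha)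
  have : 0 < ((sX y c k J).filter (fun i => i < k ∧ i + 1 ∈ sX x c k J)).card :=
    card_pos.2 ⟨i, mem_filter.2 ⟨mem_sX.2 ⟨⟨i1, by omega⟩, hy⟩, i2, mem_sX.2 ⟨⟨by omega, by omega⟩, hx⟩⟩⟩
  rw [card_singleton] at key
  omega

lemma ve (S : Sec k x y m c v t e) : v - 1 ≠ e := by
  rcases S.loc with h | h <;> omega

/-- Two open units. -/
lemma clo2 (C : Cf G R k x y m z c) (I : Iv k x y m c v a b) (S : Sec k x y m c v t e) {p q : ℕ}
    (hp : 1 ≤ p) (hpq : p ≤ q) (hq : q ≤ m) {J : Finset ℕ}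
    (hJ : ∀ j ∈ J, j ≤ m + 1 ∧ p ≤ pos m j ∧ pos m j ≤ q) (hJS : ∀ j ∈ J, j ∈ SL m 1 t)
    (hnm : ∀ i ∈ J, ∀ j ∈ J, ¬ Me G R (c i) (c j)) (ha : a ∈ J) (ht : t ∈ J)
    (hcard : (q - p) + 3 ≤ J.card + 2) : Clo k x y c J {v - 1, e} := by
  refine clo C.hG C.h C.hcat hp hpq hq hJ hnm (fun e' he => ?_) ?_
  · rw [mem_insert, mem_singleton] at he
    rcases he with rfl | rfl
    · exact I.v_open (fun j hj => (hJ j hj).1) ha
    · exact I.e_open C S hp hpq hq hJ hJS hnm ha ht (by omega)
  · rw [card_pair (ve S)]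
    exact hcard

lemma no2 (C : Cf G R k x y m z c) (I : Iv k x y m c v a b) (S : Sec k x y m c v t e) {p q : ℕ}
    (hp : 1 ≤ p) (hpq : p ≤ q) (hq : q ≤ m) {J : Finset ℕ}
    (hJ : ∀ j ∈ J, j ≤ m + 1 ∧ p ≤ pos m j ∧ pos m j ≤ q) (hJS : ∀ j ∈ J, j ∈ SL m 1 t)
    (hnm : ∀ i ∈ J, ∀ j ∈ J, ¬ Me G R (c i) (c j)) (ha : a ∈ J) (ht : t ∈ J)
    (hcard : (q - p) + 3 < J.card + 2) : False := by
  have key := law_E C.hG C.h C.hcat hp hpq hq hJ hnm (E := {v - 1, e}) (fun e' he => by
    rw [mem_insert, mem_singleton] at he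
    rcases he with rfl | rfl
    · exact I.v_open (fun j hj => (hJ j hj).1) ha
    · exact I.e_open C S hp hpq hq hJ hJS hnm ha ht (by omega))
  rw [card_pair (ve S)] at key
  omega

/-- Mates on the left of `t`. -/
lemma left_leaf (C : Cf G R k x y m z c) (S : Sec k x y m c v t e) {i j : ℕ} (hi : i ∈ SL m 1 t)
    (hj : j ∈ SL m 1 t) (hme : Me G R (c i) (c j)) : pos m i = 1 ∨ pos m j = 1 := by
  rw [mem_SL] at hi hj
  have h1 := C.leaf hi.1 hj.1 hme
  have := S.t2
  omega

lemma not_b (I : Iv k x y m c v a b) (S : Sec k x y m c v t e) : b ∉ SL m 1 t := by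
  intro h
  rw [mem_SL, I.pb] at h
  have := S.t2
  omega

lemma a_mem (C : Cf G R k x y m z c) (I : Iv k x y m c v a b) (S : Sec k x y m c v t e) :
    a ∈ SL m 1 t := by
  have h1 := I.pa C
  have h2 := S.t1
  rw [mem_SL]
  exact ⟨I.ha, by omega, by omega⟩

lemma t_mem (C : Cf G R k x y m z c) (S : Sec k x y m c v t e) : t ∈ SL m 1 t := by
  have h1 := C.hm
  have h2 := S.t1
  have h3 := S.t2
  rw [mem_SL, pos_t h3 (by omega)]
  omega

/-- A full unit on the left of `t` is not `v`. -/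
lemma ne_v (C : Cf G R k x y m z c) (I : Iv k x y m c v a b) (S : Sec k x y m c v t e) {i u : ℕ}
    (hi : i ∈ SL m 1 t) (hu : c i = y u) : u ≠ v := by
  rintro rfl
  have hv := I.hv
  have hv' := I.hv'
  have := C.uy (mem_SL.1 hi).1 I.hb (by omega) (by omega) hu I.cb
  subst this
  exact I.not_b S hi

/-- Going down from `x u`, `u` on the right of `v`. -/
lemma down (C : Cf G R k x y m z c) (I : Iv k x y m c v a b) (S : Sec k x y m c v t e) {J : Finset ℕ}
    (hJ : ∀ j ∈ J, j ∈ SL m 1 t) (hC : Clo k x y c J {v - 1, e}) {u : ℕ} (hu : v + 2 ≤ u) (huk : u ≤ k)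
    (hx : ∃ j ∈ J, c j = x u) (hy : ∃ j ∈ SL m 1 t, c j = y u) : False := by
  have hv := I.hv
  obtain ⟨j, hj, e'⟩ := hC.desc (u := v + 1) (by omega) (by omega) huk hx (fun e' he h1 h2 => by
    rw [mem_insert, mem_singleton] at he
    rcases he with rfl | rfl
    · omega
    · rcases S.loc with h | ⟨-, h⟩
      · omega
      · have := h u (by omega) huk (by obtain ⟨j, hj, e⟩ := hx; exact ⟨j, hJ j hj, e⟩) hy
        omega)
  exact I.u2x j (mem_SL.1 (hJ j hj)).1 e'

/-- Going up from `y u`, `u` on the left of `v`. -/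
lemma up (C : Cf G R k x y m z c) (I : Iv k x y m c v a b) (S : Sec k x y m c v t e) {J : Finset ℕ}
    (hJ : ∀ j ∈ J, j ∈ SL m 1 t) (hC : Clo k x y c J {v - 1, e}) {u : ℕ} (hu1 : 1 ≤ u) (hu : u + 2 ≤ v)
    (hy : ∃ j ∈ J, c j = y u) (hx : ∃ j ∈ SL m 1 t, c j = x u) : False := by
  have hv := I.hv
  have hv' := I.hv'
  obtain ⟨j, hj, e'⟩ := hC.asc (u := v - 2) hu1 (by omega) (by omega) hy (fun e' he h1 h2 => by
    rw [mem_insert, mem_singleton] at he
    rcases he with rfl | rfl
    · omega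
    · rcases S.loc with ⟨-, h⟩ | h
      · have := h u (by omega) (by omega) hx (by obtain ⟨j, hj, e⟩ := hy; exact ⟨j, hJ j hj, e⟩)
        omega
      · omega)
  exact I.s1 j (mem_SL.1 (hJ j hj)).1 (by omega) e'

/-- Location of a full unit with a leaf at `z 1`, if `x v` is an inner port. -/
lemma loc_u (C : Cf G R k x y m z c) (I : Iv k x y m c v a b) (S : Sec k x y m c v t e)
    (ha2 : 2 ≤ pos m a) {l g u : ℕ} (hl : l ∈ SL m 1 t) (hg : g ∈ SL m 1 t) (hpl : pos m l = 1)
    (hu1 : 1 ≤ u) (huk : u ≤ k) (hlg : c l = x u ∧ c g = y u ∨ c l = y u ∧ c g = x u) :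
    (c l = y u ∧ c g = x u ∧ u + 3 ≤ v) ∨ (c l = x u ∧ c g = y u ∧ v + 3 ≤ u) := by
  have hm := C.hm
  have hv := I.hv
  have hv' := I.hv'
  have t1 := S.t1
  have t2 := S.t2
  have hlm := (mem_SL.1 hl).1
  have hgm := (mem_SL.1 hg).1
  have hme : Me G R (c l) (c g) := by
    have := C.h.me u hu1 huk
    rcases hlg with ⟨e1, e2⟩ | ⟨e1, e2⟩
    · rw [e1, e2]; exact this
    · rw [e1, e2]; exact this.symm
  have hpg : 5 ≤ pos m g := by
    have := C.far hlm hgm hme
    have := pos_mem (m := m) (by omega) hgm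
    omega
  -- the inner segment
  have hN : Clo k x y c (SL m 2 t) {v - 1, e} := by
    refine I.clo2 C S (p := 2) (q := t) (by omega) (by omega) (by omega) (fun j hj => mem_SL.1 hj) ?_ ?_ ?_
      ?_ ?_
    · intro j hj
      rw [mem_SL] at hj ⊢
      omega
    · intro i hi j hj hme'
      have hi' : i ∈ SL m 1 t := by rw [mem_SL] at hi ⊢; omega
      have hj' : j ∈ SL m 1 t := by rw [mem_SL] at hj ⊢; omega
      have := left_leaf C S hi' hj' hme'
      rw [mem_SL] at hi hj
      omega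
    · have := I.a_mem C S
      rw [mem_SL] at this ⊢
      omega
    · rw [mem_SL, pos_t t2 (by omega)]
      omega
    · rw [SL_card_mid (by omega) (by omega)]
      omega
  have hgN : g ∈ SL m 2 t := by rw [mem_SL] at hg ⊢; omega
  have hsub : ∀ j ∈ SL m 2 t, j ∈ SL m 1 t := fun j hj => by rw [mem_SL] at hj ⊢; omega
  rcases hlg with ⟨e1, e2⟩ | ⟨e1, e2⟩
  · right
    refine ⟨e1, e2, ?_⟩
    have n1 : u ≠ v := I.ne_v C S hg e2
    have n2 : u ≠ v + 1 := by rintro rfl; exact I.u2x l hlm e1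
    have n3 : u ≠ v - 1 := by rintro rfl; exact I.u1x l hlm e1
    have n4 : u ≠ v + 2 := by rintro rfl; exact I.s2 l hlm huk e1
    by_contra hcon
    exact I.up C S hsub hN hu1 (by omega) ⟨g, hgN, e2⟩ ⟨l, hl, e1⟩
  · left
    refine ⟨e1, e2, ?_⟩
    have n1 : u ≠ v := I.ne_v C S hl e1
    have n2 : u ≠ v + 1 := by rintro rfl; exact I.u2x g hgm e2
    have n3 : u ≠ v - 1 := by rintro rfl; exact I.u1x g hgm e2
    have n4 : u + 2 ≠ v := by
      intro h
      refine I.s1 l hlm (by omega) ?_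
      rw [e1, show v - 2 = u by omega]
    by_contra hcon
    exact I.down C S hsub hN (by omega) huk ⟨g, hgN, e2⟩ ⟨l, hl, e1⟩

/-- The open unit of a leaf at `z 1`. -/
lemma leaf_open (C : Cf G R k x y m z c) (I : Iv k x y m c v a b) {l u : ℕ} (hl : l ≤ m + 1)
    (hpl : pos m l = 1) (hu1 : 1 ≤ u) (huk : u ≤ k)
    (h : (c l = y u ∧ u + 3 ≤ v) ∨ (c l = x u ∧ v + 3 ≤ u)) :
    ∃ w, Opn k x y c (SL m 1 1) w ∧ ((w = u + 1 ∧ w + 2 ≤ v) ∨ (w + 1 = u ∧ v + 2 ≤ w)) := by
  have hv := I.hv
  have hv' := I.hv'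
  have hlS : l ∈ SL m 1 1 := by rw [mem_SL]; omega
  have hcl : c l = x u ∨ c l = y u := by tauto
  have unseen : ∀ w, 1 ≤ w → w ≤ k → w % 2 ≠ u % 2 → ∀ j ∈ SL m 1 1, c j ≠ x w ∧ c j ≠ y w := by
    intro w w1 w2 hw j hj
    rw [mem_SL] at hj
    constructor
    · intro e
      exact hw (C.par hj.1 hl ⟨w1, w2⟩ ⟨hu1, huk⟩ (Or.inl e) hcl (by omega))
    · intro e
      exact hw (C.par hj.1 hl ⟨w1, w2⟩ ⟨hu1, huk⟩ (Or.inr e) hcl (by omega))
  rcases h with ⟨h, h'⟩ | ⟨h, h'⟩
  · refine ⟨u + 1, ⟨by omega, by omega, unseen _ (by omega) (by omega) (by omega), Or.inl ⟨l, hlS,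
      by omega, ?_⟩⟩, Or.inl ⟨rfl, by omega⟩⟩
    rw [Nat.add_sub_cancel]
    exact h
  · refine ⟨u - 1, ⟨by omega, by omega, unseen _ (by omega) (by omega) (by omega), Or.inr ⟨l, hlS,
      by omega, ?_⟩⟩, Or.inr ⟨by omega, by omega⟩⟩
    rw [show u - 1 + 1 = u by omega]
    exact h

/-- The end of the proof: one pair of mates on the left, `x v` an inner port. -/
lemma fin_inner (C : Cf G R k x y m z c) (I : Iv k x y m c v a b) (S : Sec k x y m c v t e)
    (ha2 : 2 ≤ pos m a) {l g u : ℕ} (hl : l ∈ SL m 1 t) (hg : g ∈ SL m 1 t) (hpl : pos m l = 1)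
    (hu1 : 1 ≤ u) (huk : u ≤ k)
    (hlg : (c l = y u ∧ c g = x u ∧ u + 3 ≤ v) ∨ (c l = x u ∧ c g = y u ∧ v + 3 ≤ u))
    (hpair : ∀ i ∈ SL m 1 t, ∀ j ∈ SL m 1 t, Me G R (c i) (c j) → (i = l ∧ j = g) ∨ (i = g ∧ j = l)) :
    False := by
  have hm := C.hm
  have hv := I.hv
  have hv' := I.hv'
  have t1 := S.t1
  have t2 := S.t2
  have hpa := I.pa C
  have hlm := (mem_SL.1 hl).1
  have hgm := (mem_SL.1 hg).1
  have hme : Me G R (c l) (c g) := by
    have := C.h.me u hu1 huk
    rcases hlg with ⟨e1, e2, -⟩ | ⟨e1, e2, -⟩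
    · rw [e1, e2]; exact this.symm
    · rw [e1, e2]; exact this
  have hpg : 5 ≤ pos m g := by
    have := C.far hlm hgm hme
    have := pos_mem (m := m) (by omega) hgm
    omega
  have hla : l ≠ a := by rintro rfl; omega
  -- the conclusion for a closed set containing `l`
  have concl : ∀ J : Finset ℕ, (∀ j ∈ J, j ∈ SL m 1 t) → Clo k x y c J {v - 1, e} → l ∈ J → False := by
    intro J hJ hC hlJ
    rcases hlg with ⟨e1, e2, h3⟩ | ⟨e1, e2, h3⟩
    · exact I.up C S hJ hC hu1 (by omega) ⟨l, hlJ, e1⟩ ⟨g, hg, e2⟩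
    · exact I.down C S hJ hC (by omega) huk ⟨l, hlJ, e1⟩ ⟨g, hg, e2⟩
  have hag : a ≠ g := by
    rintro rfl
    rcases hlg with ⟨e1, e2, h3⟩ | ⟨e1, e2, h3⟩
    · have := C.h.injx _ _ hu1 huk (by omega) (by omega) (e2.symm.trans I.ca)
      omega
    · exact C.h.xy _ _ (by omega) (by omega) hu1 huk (I.ca.symm.trans e2)
  have hpag : pos m a ≠ pos m g := by
    intro h
    have h2 := hpa.1
    have h3 := hpa.2
    apply hag
    unfold pos at h h2 ha2 hpg
    split_ifs at h h2 ha2 hpg <;> omega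
  by_cases hlt : pos m a < pos m g
  · -- the segment up to `x v`
    have hsub : ∀ j ∈ SL m 1 (pos m a), j ∈ SL m 1 t := fun j hj => by
      rw [mem_SL] at hj ⊢; omega
    have hC : Clo k x y c (SL m 1 (pos m a)) {v - 1} := by
      refine clo C.hG C.h C.hcat (p := 1) (q := pos m a) le_rfl (by omega) (by omega)
        (fun j hj => mem_SL.1 hj) ?_ ?_ ?_
      · intro i hi j hj hme'
        rcases hpair i (hsub i hi) j (hsub j hj) hme' with ⟨-, rfl⟩ | ⟨rfl, -⟩
        · rw [mem_SL] at hj; omega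
        · rw [mem_SL] at hi; omega
      · intro e' he
        rw [mem_singleton] at he
        subst he
        refine I.v_open (fun j hj => (mem_SL.1 hj).1) ?_
        rw [mem_SL]
        exact ⟨I.ha, by omega, le_rfl⟩
      · rw [SL_card_left (by omega) (by omega) (by omega), card_singleton]
        omega
    refine concl _ hsub ⟨fun j hj i h1 h2 h3 => ?_, fun j hj i h1 h2 h3 => ?_⟩ ?_
    · rcases hC.fx j hj i h1 h2 h3 with h | h
      · exact Or.inl h
      · right
        rw [mem_singleton] at h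
        rw [mem_insert]
        exact Or.inl h
    · rcases hC.fy j hj i h1 h2 h3 with h | h
      · exact Or.inl h
      · right
        rw [mem_singleton] at h
        rw [mem_insert]
        exact Or.inl h
    · rw [mem_SL]; omega
  · -- the segment up to `t` without `g`
    have hgt : g ≠ t := by
      rintro rfl
      have := pos_t t2 (by omega)
      omega
    refine concl ((SL m 1 t).erase g) (fun j hj => mem_of_mem_erase hj) ?_
      (mem_erase.2 ⟨by rintro rfl; omega, hl⟩)
    refine I.clo2 C S (p := 1) (q := t) le_rfl (by omega) (by omega)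
      (fun j hj => mem_SL.1 (mem_of_mem_erase hj)) (fun j hj => mem_of_mem_erase hj) ?_
      (mem_erase.2 ⟨hag, I.a_mem C S⟩) (mem_erase.2 ⟨hgt.symm, t_mem C S⟩) ?_
    · intro i hi j hj hme'
      rcases hpair i (mem_of_mem_erase hi) j (mem_of_mem_erase hj) hme' with ⟨-, rfl⟩ | ⟨rfl, -⟩
      · exact (mem_erase.1 hj).1 rfl
      · exact (mem_erase.1 hi).1 rfl
    · rw [card_erase_of_mem hg, SL_card_left (by omega) (by omega) (by omega)]
      omega

/-- The end of the proof: one pair of mates on the left, `x v` a leaf port. -/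
lemma fin_leaf (C : Cf G R k x y m z c) (I : Iv k x y m c v a b) (S : Sec k x y m c v t e)
    (ha1 : pos m a = 1) {l g u : ℕ} (hl : l ∈ SL m 1 t) (hg : g ∈ SL m 1 t) (hpl : pos m l = 1)
    (hu1 : 1 ≤ u) (huk : u ≤ k) (hlg : c l = x u ∧ c g = y u ∨ c l = y u ∧ c g = x u)
    (hpair : ∀ i ∈ SL m 1 t, ∀ j ∈ SL m 1 t, Me G R (c i) (c j) → (i = l ∧ j = g) ∨ (i = g ∧ j = l)) :
    False := by
  have hm := C.hm
  have hv := I.hv
  have hv' := I.hv'
  have t1 := S.t1
  have t2 := S.t2
  have hlm := (mem_SL.1 hl).1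
  have hgm := (mem_SL.1 hg).1
  have hla : l ≠ a := by
    rintro rfl
    rcases hlg with ⟨e1, e2⟩ | ⟨e1, e2⟩
    · have := C.h.injx _ _ hu1 huk (by omega) (by omega) (e1.symm.trans I.ca)
      exact I.ne_v C S hg e2 this
    · exact C.h.xy _ _ (by omega) (by omega) hu1 huk (I.ca.symm.trans e1)
  have h01 : ∀ j ∈ SL m 1 1, j = l ∨ j = a := by
    intro j hj
    rw [mem_SL] at hj
    have h1 : pos m j = 1 := by omega
    have h2 := I.ha
    unfold pos at h1 ha1 hpl
    split_ifs at h1 ha1 hpl <;> omega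
  have hC1 : Clo k x y c (SL m 1 1) {v - 1} := by
    refine clo C.hG C.h C.hcat (p := 1) (q := 1) le_rfl le_rfl (by omega)
      (fun j hj => mem_SL.1 hj) ?_ ?_ ?_
    · intro i hi j hj hme'
      rw [mem_SL] at hi hj
      have := C.far hi.1 hj.1 hme'
      omega
    · intro e' he
      rw [mem_singleton] at he
      subst he
      refine I.v_open (fun j hj => (mem_SL.1 hj).1) ?_
      rw [mem_SL, ha1]
      exact ⟨I.ha, le_rfl, le_rfl⟩
    · rw [SL_card_left (by omega) (by omega) (by omega), card_singleton]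
  have hl1 : l ∈ SL m 1 1 := by rw [mem_SL, hpl]; exact ⟨hlm, le_rfl, le_rfl⟩
  have hCJ : Clo k x y c ((SL m 1 t).erase l) {v - 1, e} := by
    refine I.clo2 C S (p := 1) (q := t) le_rfl (by omega) (by omega)
      (fun j hj => mem_SL.1 (mem_of_mem_erase hj)) (fun j hj => mem_of_mem_erase hj) ?_
      (mem_erase.2 ⟨hla.symm, I.a_mem C S⟩) (mem_erase.2 ⟨?_, t_mem C S⟩) ?_
    · intro i hi j hj hme'
      rcases hpair i (mem_of_mem_erase hi) j (mem_of_mem_erase hj) hme' with ⟨rfl, -⟩ | ⟨-, rfl⟩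
      · exact (mem_erase.1 hi).1 rfl
      · exact (mem_erase.1 hj).1 rfl
    · rintro rfl
      have := pos_t t2 (by omega)
      omega
    · rw [card_erase_of_mem hl, SL_card_left (by omega) (by omega) (by omega)]
      omega
  have hgJ : g ∈ (SL m 1 t).erase l := by
    refine mem_erase.2 ⟨?_, hg⟩
    rintro rfl
    rcases hlg with ⟨e1, e2⟩ | ⟨e1, e2⟩
    · exact C.h.xy _ _ hu1 huk hu1 huk (e1.symm.trans e2)
    · exact C.h.xy _ _ hu1 huk hu1 huk (e2.symm.trans e1)
  rcases hlg with ⟨e1, e2⟩ | ⟨e1, e2⟩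
  · -- `l = x 1`
    have hu : u = 1 := by
      by_contra hne
      rcases hC1.fx l hl1 u (by omega) huk e1 with ⟨j, hj, e3⟩ | h3
      · rcases h01 j hj with rfl | rfl
        · have := C.h.injx _ _ (by omega) (by omega) hu1 huk (e3.symm.trans e1)
          omega
        · have := C.h.injx _ _ (by omega) (by omega) (by omega) (by omega) (e3.symm.trans I.ca)
          have h4 : u = v + 1 := by omega
          rw [h4] at e1
          exact I.u2x l hlm e1
      · rw [mem_singleton] at h3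
        exact I.ne_v C S hg e2 (by omega)
    subst hu
    have n1 : v - 1 ≠ 1 := fun h => I.u1x l hlm (by rw [e1, h])
    exact I.up C S (fun j hj => mem_of_mem_erase hj) hCJ le_rfl (by omega) ⟨g, hgJ, e2⟩ ⟨l, hl, e1⟩
  · -- `l = y k`
    have hu : u = k := by
      by_contra hne
      rcases hC1.fy l hl1 u hu1 (by omega) e1 with ⟨j, hj, e3⟩ | h3
      · rcases h01 j hj with rfl | rfl
        · have := C.h.injy _ _ (by omega) (by omega) hu1 huk (e3.symm.trans e1)
          omega
        · exact C.h.xy _ _ (by omega) (by omega) (by omega) (by omega) (I.ca.symm.trans e3)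
      · rw [mem_singleton] at h3
        refine I.s1 l hlm (by omega) ?_
        rw [e1, show v - 2 = u by omega]
    subst hu
    have n1 : v + 1 ≠ u := fun h => I.u2y l hlm (by rw [e1, h])
    exact I.down C S (fun j hj => mem_of_mem_erase hj) hCJ (by omega) le_rfl ⟨g, hgJ, e2⟩ ⟨l, hl, e1⟩

/-- The core. -/
theorem core (C : Cf G R k x y m z c) (I : Iv k x y m c v a b) : False := by
  obtain ⟨t, e, S⟩ := I.exists_sec C
  have hm := C.hm
  have hv := I.hv
  have hv' := I.hv'
  have t1 := S.t1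
  have t2 := S.t2
  have hpa := I.pa C
  by_cases hp : ∃ l ∈ SL m 1 t, ∃ g ∈ SL m 1 t, Me G R (c l) (c g) ∧ pos m l = 1
  · obtain ⟨l, hl, g, hg, hme, hpl⟩ := hp
    have hlm := (mem_SL.1 hl).1
    have hgm := (mem_SL.1 hg).1
    obtain ⟨u, hu1, huk, hlg⟩ := C.mates hlm hgm hme
    have hInC : ∀ j, c j = x u ∨ c j = y u → InC k x y (c j) := fun j hj => ⟨u, hu1, huk, hj⟩
    -- the only pair
    have hpair : ∀ i ∈ SL m 1 t, ∀ j ∈ SL m 1 t, Me G R (c i) (c j) →
        (i = l ∧ j = g) ∨ (i = g ∧ j = l) := by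
      have one : ∀ i ∈ SL m 1 t, ∀ j ∈ SL m 1 t, Me G R (c i) (c j) → pos m i = 1 → i = l ∧ j = g := by
        intro i hi j hj hme' hpi
        have hil : i = l := by
          by_contra hne
          have him := (mem_SL.1 hi).1
          have hjm := (mem_SL.1 hj).1
          obtain ⟨w, hw1, hwk, hij⟩ := C.mates him hjm hme'
          by_cases ha1 : pos m a = 1
          · -- one of the two is `a`
            have hal : l ≠ a := by
              rintro rfl
              rcases hlg with ⟨e1, e2⟩ | ⟨e1, e2⟩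
              · have := C.h.injx _ _ hu1 huk (by omega) (by omega) (e1.symm.trans I.ca)
                exact I.ne_v C S hg e2 this
              · exact C.h.xy _ _ (by omega) (by omega) hu1 huk (I.ca.symm.trans e1)
            have hai : i ≠ a := by
              rintro rfl
              rcases hij with ⟨e1, e2⟩ | ⟨e1, e2⟩
              · have := C.h.injx _ _ hw1 hwk (by omega) (by omega) (e1.symm.trans I.ca)
                exact I.ne_v C S hj e2 this
              · exact C.h.xy _ _ (by omega) (by omega) hw1 hwk (I.ca.symm.trans e1)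
            have h2 := I.ha
            unfold pos at hpl hpi ha1
            split_ifs at hpl hpi ha1 <;> omega
          · have ha2 : 2 ≤ pos m a := by omega
            have k1 := I.loc_u C S ha2 hl hg hpl hu1 huk hlg
            have k2 := I.loc_u C S ha2 hi hj hpi hw1 hwk hij
            obtain ⟨o1, ho1, hw1'⟩ := I.leaf_open C hlm hpl hu1 huk (by tauto)
            obtain ⟨o2, ho2, hw2'⟩ := I.leaf_open C him hpi hw1 hwk (by tauto)
            have hne' : o1 ≠ o2 := by
              intro hoo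
              have huw : u = w := by omega
              subst huw
              rcases hlg with ⟨e1, e2⟩ | ⟨e1, e2⟩ <;> rcases hij with ⟨e3, e4⟩ | ⟨e3, e4⟩
              · exact hne (C.ux him hlm hu1 huk e3 e1)
              · have := C.ux hlm hjm hu1 huk e1 e4
                subst this
                have := C.far him hlm hme'
                omega
              · have := C.ux hgm him hu1 huk e2 e3
                subst this
                have := C.far hlm hgm hme
                omega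
              · exact hne (C.uy him hlm hu1 huk e3 e1)
            have key := law_E C.hG C.h C.hcat (p := 1) (q := 1) le_rfl le_rfl (by omega)
              (J := SL m 1 1) (fun j hj => mem_SL.1 hj) (fun i hi j hj hme'' => by
                rw [mem_SL] at hi hj
                have := C.far hi.1 hj.1 hme''
                omega) (E := {o1, o2}) (fun o ho => by
                rw [mem_insert, mem_singleton] at ho
                rcases ho with rfl | rfl
                · exact ho1
                · exact ho2)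
            rw [card_pair hne', SL_card_left (by omega) (by omega) (by omega)] at key
            omega
        subst hil
        refine ⟨rfl, ?_⟩
        have e1 : c j = c g := C.hG.matching hme' hme
        refine C.uniq j g (mem_SL.1 hj).1 hgm ?_ e1
        rw [e1]
        exact hInC g (by tauto)
      intro i hi j hj hme'
      rcases left_leaf C S hi hj hme' with h | h
      · exact Or.inl (one i hi j hj hme' h)
      · have := one j hj i hi hme'.symm h
        exact Or.inr ⟨this.2, this.1⟩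
    by_cases ha1 : pos m a = 1
    · exact I.fin_leaf C S ha1 hl hg hpl hu1 huk hlg hpair
    · exact I.fin_inner C S (by omega) hl hg hpl hu1 huk
        (I.loc_u C S (by omega) hl hg hpl hu1 huk hlg) hpair
  · refine I.no2 C S (p := 1) (q := t) le_rfl (by omega) (by omega) (J := SL m 1 t)
      (fun j hj => mem_SL.1 hj) (fun j hj => hj) (fun i hi j hj hme => ?_) (I.a_mem C S) (t_mem C S) ?_
    · rcases left_leaf C S hi hj hme with h | h
      · exact hp ⟨i, hi, j, hj, hme, h⟩
      · exact hp ⟨j, hj, i, hi, hme.symm, h⟩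
    · rw [SL_card_left (by omega) (by omega) (by omega)]
      omega

end Iv

end CLB.H62
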