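import Pool.Agent.Helper62_DA.Iso2
import Pool.Agent.Helper3_DA.WdCat

/-!
**No isolated full unit without a shared neighbour**: the final form.
-/

set_option autoImplicit false
set_option linter.unusedSectionVars false

namespace CLB.H62

open Finset Classical
open CLB.H95
open H3DA (Q neg nr)
open CLB.H3 (CExt Cat IsTwo pos)

variable {V : Type*} {G : SimpleGraph V} {R : V → Bool} [Fintype V] {k : ℕ} {x y : ℕ → V}
  {m : ℕ} {z c : ℕ → V}

/-- Reversal of the caterpillar. -/
lemma Cf.rev (C : Cf G R k x y m z c) :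
    Cf G R k x y m (fun i => z (m + 1 - i)) (fun j => c (m + 1 - j)) where
  hG := C.hG
  hc := C.hc
  h := C.h
  hcat := cat_rev C.hcat
  hk := C.hk
  hm := C.hm
  uniq i j hi hj h1 h2 := by
    have := C.uniq (m + 1 - i) (m + 1 - j) (by omega) (by omega) h1 h2
    omega
  out i j hi hj h1 h2 := by
    have := C.out (m + 1 - i) (m + 1 - j) (by omega) (by omega) h1 h2
    omega

/-- Reversal of the chain. -/
lemma Cf.mir (C : Cf G R k x y m z c) :
    Cf G R k (fun i => y (k + 1 - i)) (fun i => x (k + 1 - i)) m z c where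
  hG := C.hG
  hc := C.hc
  h := C.h.rev
  hcat := C.hcat
  hk := C.hk
  hm := C.hm
  uniq i j hi hj h1 h2 := C.uniq i j hi hj (inC_rev.1 h1) h2
  out i j hi hj h1 h2 := C.out i j hi hj (fun h => h1 (inC_rev.2 h)) (fun h => h2 (inC_rev.2 h))

/-- One orientation. -/
lemma iso_ym (C : Cf G R k x y m z c) {v i j : ℕ} (hv : 2 ≤ v) (hv' : v + 1 ≤ k) (hi : i ≤ m + 1)
    (hj : j ≤ m + 1) (ci : c i = x v) (cj : c j = y v)
    (hu : ∀ l ≤ m + 1, c l ≠ x (v - 1) ∧ c l ≠ y (v - 1) ∧ c l ≠ x (v + 1) ∧ c l ≠ y (v + 1))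
    (s1 : ∀ l ≤ m + 1, 3 ≤ v → c l ≠ y (v - 2)) (s2 : ∀ l ≤ m + 1, v + 2 ≤ k → c l ≠ x (v + 2))
    (hp : pos m j = m ∨ pos m j = 1) : False := by
  have hm := C.hm
  rcases hp with hp | hp
  · exact Iv.core C (a := i) (b := j) ⟨hv, hv', hj, cj, hp, hi, ci, fun l hl => (hu l hl).1,
      fun l hl => (hu l hl).2.1, fun l hl => (hu l hl).2.2.1, fun l hl => (hu l hl).2.2.2, s1, s2⟩
  · have h1 := CLB.H3.pos_rev (m := m) (j := j) (by omega) hj
    refine Iv.core C.rev (v := v) (a := m + 1 - i) (b := m + 1 - j) ⟨hv, hv', by omega, ?_, by omega,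
      by omega, ?_, fun l hl => (hu _ (by omega)).1, fun l hl => (hu _ (by omega)).2.1,
      fun l hl => (hu _ (by omega)).2.2.1, fun l hl => (hu _ (by omega)).2.2.2,
      fun l hl => s1 _ (by omega), fun l hl => s2 _ (by omega)⟩
    · show c (m + 1 - (m + 1 - j)) = y v
      rw [show m + 1 - (m + 1 - j) = j by omega]
      exact cj
    · show c (m + 1 - (m + 1 - i)) = x v
      rw [show m + 1 - (m + 1 - i) = i by omega]
      exact ci

/-- **An isolated full unit shares an unseen neighbour.** -/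
theorem iso_ldl (C : Cf G R k x y m z c) {v i j : ℕ} (hv : 2 ≤ v) (hv' : v + 1 ≤ k) (hi : i ≤ m + 1)
    (hj : j ≤ m + 1) (ci : c i = x v) (cj : c j = y v)
    (hu : ∀ l ≤ m + 1, c l ≠ x (v - 1) ∧ c l ≠ y (v - 1) ∧ c l ≠ x (v + 1) ∧ c l ≠ y (v + 1)) :
    (3 ≤ v ∧ ∃ l ≤ m + 1, c l = y (v - 2)) ∨ (v + 2 ≤ k ∧ ∃ l ≤ m + 1, c l = x (v + 2)) := by
  by_contra hcon
  push Not at hcon
  obtain ⟨s1, s2⟩ := hcon
  have hme := C.h.me v (by omega) (by omega)
  rw [← ci, ← cj] at hme
  have hl := C.leaf hi hj hme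
  have hcase : (pos m j = m ∨ pos m j = 1) ∨ (pos m i = m ∨ pos m i = 1) := by tauto
  rcases hcase with hp | hp
  · exact iso_ym C hv hv' hi hj ci cj hu (fun l hl h => s1 h l hl) (fun l hl h => s2 h l hl) hp
  · refine iso_ym C.mir (v := k + 1 - v) (i := j) (j := i) (by omega) (by omega) hj hi ?_ ?_
      (fun l hl => ?_) (fun l hl h3 => ?_) (fun l hl h3 => ?_) hp
    · show c j = y (k + 1 - (k + 1 - v))
      rw [show k + 1 - (k + 1 - v) = v by omega]
      exact cj
    · show c i = x (k + 1 - (k + 1 - v))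
      rw [show k + 1 - (k + 1 - v) = v by omega]
      exact ci
    · show c l ≠ y (k + 1 - (k + 1 - v - 1)) ∧ c l ≠ x (k + 1 - (k + 1 - v - 1)) ∧
        c l ≠ y (k + 1 - (k + 1 - v + 1)) ∧ c l ≠ x (k + 1 - (k + 1 - v + 1))
      rw [show k + 1 - (k + 1 - v - 1) = v + 1 by omega, show k + 1 - (k + 1 - v + 1) = v - 1 by omega]
      obtain ⟨h1, h2, h3, h4⟩ := hu l hl
      exact ⟨h4, h3, h2, h1⟩
    · show c l ≠ x (k + 1 - (k + 1 - v - 2))
      rw [show k + 1 - (k + 1 - v - 2) = v + 2 by omega]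
      exact s2 (by omega) l hl
    · show c l ≠ y (k + 1 - (k + 1 - v + 2))
      rw [show k + 1 - (k + 1 - v + 2) = v - 2 by omega]
      exact s1 (by omega) l hl

/-- The hypotheses for a nearly closed caterpillar. -/
lemma Cf.of_ncp (hG : ClassC G R) (hc : Crit G R) (h : Chn G R k x y) (hcat : Cat G R m z c)
    (hk : 2 ≤ k) (hm : 6 ≤ m) (hn : NCp m (JC k x y c))
    (hx : ∀ i j, i ≤ m + 1 → j ≤ m + 1 → c i = x 1 → c j = x 1 → i = j)
    (hy : ∀ i j, i ≤ m + 1 → j ≤ m + 1 → c i = y k → c j = y k → i = j) : Cf G R k x y m z c where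
  hG := hG
  hc := hc
  h := h
  hcat := hcat
  hk := hk
  hm := hm
  uniq i j hi hj h1 h2 := by
    obtain ⟨u, u1, u2, e | e⟩ := h1
    · by_cases hu : u = 1
      · subst hu
        exact hx i j hi hj e (h2.symm.trans e)
      · have hl := (h.lk (u - 1) (by omega) (by omega)).symm
        rw [show u - 1 + 1 = u by omega, ← e] at hl
        exact CLB.H3.pc_one (CLB.H3.pc_lk hG hcat hl) hi hj rfl h2.symm
    · by_cases hu : u = k
      · subst hu
        exact hy i j hi hj e (h2.symm.trans e)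
      · have hl := h.lk u u1 (by omega)
        rw [← e] at hl
        exact CLB.H3.pc_one (CLB.H3.pc_lk hG hcat hl) hi hj rfl h2.symm
  out i j hi hj h1 h2 := by
    have key : ∀ i j, i < j → j ≤ m + 1 → ¬ InC k x y (c i) → ¬ InC k x y (c j) → False := by
      intro i j hij hj h1 h2
      have h1' : ¬ JC k x y c i := h1
      have h2' : ¬ JC k x y c j := h2
      have hi0 : i = 0 ∨ i = 1 ∨ 2 ≤ i := by omega
      have hjm : j = m + 1 ∨ j = m ∨ j + 1 ≤ m := by omega
      rcases hn with hn | ⟨a1, a2, a3, a4, a5⟩ | ⟨a1, a2, a3, a4, a5⟩ | ⟨a1, a2, a3, a4, a5⟩ | hn | hn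
      · omega
      · have hi2 : 2 ≤ i := by
          rcases hi0 with rfl | rfl | h
          · exact absurd a1 h1'
          · exact absurd a2 h1'
          · exact h
        have him : ¬ (i + 1 ≤ m) := fun h => h1' (a5 i hi2 h)
        have e1 : i = m := by omega
        have e2 : j = m + 1 := by omega
        subst e1 e2
        exact a4.elim h1' h2'
      · have hjm' : j + 1 ≤ m := by
          rcases hjm with rfl | rfl | h
          · exact absurd a2 h2'
          · exact absurd a1 h2'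
          · exact h
        have hj2 : ¬ (2 ≤ j) := fun h => h2' (a5 j h hjm')
        have e1 : i = 0 := by omega
        have e2 : j = 1 := by omega
        subst e1 e2
        exact a4.elim h1' h2'
      · have hi2 : 2 ≤ i := by
          rcases hi0 with rfl | rfl | h
          · exact absurd a1 h1'
          · exact absurd a2 h1'
          · exact h
        have hjm' : j + 1 ≤ m := by
          rcases hjm with rfl | rfl | h
          · exact absurd a4 h2'
          · exact absurd a3 h2'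
          · exact h
        exact (a5 i j hi2 hij hjm').elim h1' h2'
      · omega
      · omega
    rcases lt_trichotomy i j with h3 | h3 | h3
    · exact (key i j h3 hj h1 h2).elim
    · exact h3
    · exact (key j i h3 hi h2 h1).elim

end CLB.H62
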