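import Pool.Agent.Helper95_CLB.Bad

/-!
The inequality of maximum cuts for sets of ports without mates: open units, links, and runs.
-/

set_option autoImplicit false
set_option linter.unusedSectionVars false

namespace CLB.H62

open Finset Classical
open CLB.H95
open H3DA (Q neg nr)
open CLB.H3 (CExt Cat IsTwo pos rstar sX sO mem_sX mem_sO seen_mem seen_card mmS)

variable {V : Type*} {G : SimpleGraph V} {R : V → Bool} [Fintype V] {k : ℕ} {x y : ℕ → V}
  {m : ℕ} {z c : ℕ → V}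

/-- The ports at positions `p, ..., q`. -/
def SL (m p q : ℕ) : Finset ℕ := (range (m + 2)).filter (fun j => p ≤ pos m j ∧ pos m j ≤ q)

lemma mem_SL {p q j : ℕ} : j ∈ SL m p q ↔ j ≤ m + 1 ∧ p ≤ pos m j ∧ pos m j ≤ q := by
  unfold SL; rw [mem_filter, mem_range]
  constructor
  · rintro ⟨h1, h2⟩; exact ⟨by omega, h2⟩
  · rintro ⟨h1, h2⟩; exact ⟨by omega, h2⟩

lemma SL_card_left {q : ℕ} (hm : 2 ≤ m) (hq : 1 ≤ q) (hqm : q < m) : (SL m 1 q).card = q + 1 := by
  have : SL m 1 q = range (q + 1) := by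
    ext j
    rw [mem_SL, mem_range]
    unfold pos
    split_ifs <;> omega
  rw [this, card_range]

lemma SL_card_right {r : ℕ} (hr : 2 ≤ r) (hrm : r ≤ m) : (SL m r m).card = m - r + 2 := by
  have : SL m r m = Icc r (m + 1) := by
    ext j
    rw [mem_SL, mem_Icc]
    unfold pos
    split_ifs <;> omega
  rw [this, Nat.card_Icc]
  omega

lemma SL_card_mid {q : ℕ} (hq : 2 ≤ q) (hqm : q < m) : (SL m 2 q).card = q - 1 := by
  have : SL m 2 q = Icc 2 q := by
    ext j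
    rw [mem_SL, mem_Icc]
    unfold pos
    split_ifs <;> omega
  rw [this, Nat.card_Icc]
  omega

/-- The law for open units and links. -/
theorem law_E (hG : ClassC G R) (h : Chn G R k x y) (hcat : Cat G R m z c) {p q : ℕ} (hp : 1 ≤ p)
    (hpq : p ≤ q) (hq : q ≤ m) {J : Finset ℕ} (hJ : ∀ j ∈ J, j ≤ m + 1 ∧ p ≤ pos m j ∧ pos m j ≤ q)
    (hnm : ∀ i ∈ J, ∀ j ∈ J, ¬ Me G R (c i) (c j)) {E : Finset ℕ} (hE : ∀ e ∈ E, Opn k x y c J e) :
    E.card + 2 * ((sX y c k J).filter (fun i => i < k ∧ i + 1 ∈ sX x c k J)).card + J.card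
      ≤ (q - p) + 3 := by
  set X := sX x c k J with hX
  set Y := sX y c k J with hY
  set O := sO x y c k J with hO
  set Ux := E.filter (fun e => 2 ≤ e ∧ e - 1 ∈ Y) with hUx
  set Uy := E \ Ux with hUy
  have key := rstar hG h hcat hp hpq hq (X := X) (Y := Y) (Ux := Ux) (Uy := Uy) (O := O) (J := J)
    (fun i hi => (mem_sX.1 hi).1) (fun i hi => (mem_sX.1 hi).1)
    (fun w hw => by
      obtain ⟨⟨j, hj, rfl⟩, h2⟩ := mem_sO.1 hw
      exact ⟨hcat.cov j (hJ j hj).1, h2⟩)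
    (fun i hi => by
      rw [hUx, mem_filter] at hi
      obtain ⟨hi1, hi2, hi3⟩ := hi
      obtain ⟨o1, o2, o3, -⟩ := hE i hi1
      refine ⟨⟨hi2, o2⟩, ?_, ?_, hi3⟩
      · intro hc
        obtain ⟨-, j, hj, e⟩ := mem_sX.1 hc
        exact (o3 j hj).1 e
      · intro hc
        obtain ⟨-, j, hj, e⟩ := mem_sX.1 hc
        exact (o3 j hj).2 e)
    (fun i hi => by
      rw [hUy, mem_sdiff, hUx, mem_filter] at hi
      obtain ⟨hi1, hi2⟩ := hi
      obtain ⟨o1, o2, o3, o4⟩ := hE i hi1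
      have n1 : i ∉ X := by
        intro hc
        obtain ⟨-, j, hj, e⟩ := mem_sX.1 hc
        exact (o3 j hj).1 e
      have n2 : i ∉ Y := by
        intro hc
        obtain ⟨-, j, hj, e⟩ := mem_sX.1 hc
        exact (o3 j hj).2 e
      rcases o4 with ⟨j, hj, h5, h6⟩ | ⟨j, hj, h5, h6⟩
      · exact absurd ⟨hi1, h5, mem_sX.2 ⟨⟨by omega, by omega⟩, j, hj, h6⟩⟩ hi2
      · exact ⟨⟨o1, h5⟩, n1, n2, mem_sX.2 ⟨⟨by omega, by omega⟩, j, hj, h6⟩⟩)
    disjoint_sdiff hJ (fun j hj => seen_mem hj)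
  have e1 : X ∩ Y = ∅ := by
    rw [Finset.eq_empty_iff_forall_notMem]
    intro i hi
    rw [mem_inter] at hi
    obtain ⟨⟨h1, h2⟩, j, hj, e⟩ := mem_sX.1 hi.1
    obtain ⟨-, j', hj', e'⟩ := mem_sX.1 hi.2
    have := h.me i h1 h2
    rw [← e, ← e'] at this
    exact hnm j hj j' hj' this
  have e2 : mmS G R O = 0 := by
    unfold mmS
    refine Finset.sum_eq_zero fun v hv => ?_
    rw [Finset.card_eq_zero, Finset.filter_eq_empty_iff]
    intro u hu hm
    obtain ⟨⟨j, hj, rfl⟩, -⟩ := mem_sO.1 hv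
    obtain ⟨⟨j', hj', rfl⟩, -⟩ := mem_sO.1 hu
    exact hnm j hj j' hj' hm
  have e3 : X.card + Y.card + O.card = (J.image c).card := seen_card h J
  have e4 : (J.image c).card ≤ J.card := card_image_le
  have e5 : Ux.card + Uy.card = E.card := by
    rw [hUy, add_comm]
    exact card_sdiff_add_card_eq_card (filter_subset _ _)
  rw [e1, card_empty, e2] at key
  omega

/-- The ports of `J` face only the units in `E`. -/
structure Clo (k : ℕ) (x y c : ℕ → V) (J E : Finset ℕ) : Prop where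
  fx : ∀ j ∈ J, ∀ i, 2 ≤ i → i ≤ k → c j = x i → (∃ j' ∈ J, c j' = x (i - 1)) ∨ i - 1 ∈ E
  fy : ∀ j ∈ J, ∀ i, 1 ≤ i → i < k → c j = y i → (∃ j' ∈ J, c j' = y (i + 1)) ∨ i + 1 ∈ E

theorem clo (hG : ClassC G R) (h : Chn G R k x y) (hcat : Cat G R m z c) {p q : ℕ} (hp : 1 ≤ p)
    (hpq : p ≤ q) (hq : q ≤ m) {J : Finset ℕ} (hJ : ∀ j ∈ J, j ≤ m + 1 ∧ p ≤ pos m j ∧ pos m j ≤ q)
    (hnm : ∀ i ∈ J, ∀ j ∈ J, ¬ Me G R (c i) (c j)) {E : Finset ℕ} (hE : ∀ e ∈ E, Opn k x y c J e)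
    (hcard : (q - p) + 3 ≤ J.card + E.card) : Clo k x y c J E := by
  have key := law_E hG h hcat hp hpq hq hJ hnm hE
  have hl : ∀ i, i < k → i ∈ sX y c k J → i + 1 ∈ sX x c k J → False := by
    intro i h1 h2 h3
    have : 0 < ((sX y c k J).filter (fun i => i < k ∧ i + 1 ∈ sX x c k J)).card :=
      card_pos.2 ⟨i, mem_filter.2 ⟨h2, h1, h3⟩⟩
    omega
  have ho : ∀ e, Opn k x y c J e → e ∈ E := by
    intro e he
    by_contra hn
    have k2 := law_E hG h hcat hp hpq hq hJ hnm (E := insert e E) (fun a ha => by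
      rw [mem_insert] at ha
      rcases ha with rfl | ha
      · exact he
      · exact hE a ha)
    rw [card_insert_of_notMem hn] at k2
    omega
  constructor
  · intro j hj i h1 h2 hc
    by_cases hx : ∃ j' ∈ J, c j' = x (i - 1)
    · exact Or.inl hx
    right
    by_cases hy : ∃ j' ∈ J, c j' = y (i - 1)
    · exfalso
      obtain ⟨j', hj', e⟩ := hy
      refine hl (i - 1) (by omega) (mem_sX.2 ⟨⟨by omega, by omega⟩, j', hj', e⟩) ?_
      rw [show i - 1 + 1 = i by omega]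
      exact mem_sX.2 ⟨⟨by omega, h2⟩, j, hj, hc⟩
    refine ho _ ⟨by omega, by omega, fun j' hj' => ⟨fun e => hx ⟨j', hj', e⟩, fun e => hy ⟨j', hj', e⟩⟩,
      Or.inr ⟨j, hj, by omega, ?_⟩⟩
    rw [show i - 1 + 1 = i by omega]
    exact hc
  · intro j hj i h1 h2 hc
    by_cases hy : ∃ j' ∈ J, c j' = y (i + 1)
    · exact Or.inl hy
    right
    by_cases hx : ∃ j' ∈ J, c j' = x (i + 1)
    · exfalso
      obtain ⟨j', hj', e⟩ := hx
      exact hl i h2 (mem_sX.2 ⟨⟨by omega, by omega⟩, j, hj, hc⟩)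
        (mem_sX.2 ⟨⟨by omega, by omega⟩, j', hj', e⟩)
    refine ho _ ⟨by omega, by omega, fun j' hj' => ⟨fun e => hx ⟨j', hj', e⟩, fun e => hy ⟨j', hj', e⟩⟩,
      Or.inl ⟨j, hj, by omega, ?_⟩⟩
    rw [Nat.add_sub_cancel]
    exact hc

/-- Runs going down. -/
lemma Clo.desc {J E : Finset ℕ} (hC : Clo k x y c J E) {i u : ℕ} (hu : 1 ≤ u) (hui : u ≤ i) (hik : i ≤ k)
    (hi : ∃ j ∈ J, c j = x i) (hE : ∀ e ∈ E, u ≤ e → e < i → False) : ∃ j ∈ J, c j = x u := by
  induction hui using Nat.decreasingInduction with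
  | self => exact hi
  | of_succ n hn ih =>
    obtain ⟨j, hj, e⟩ := ih (by omega) (fun a ha h1 h2 => hE a ha (by omega) h2)
    rcases hC.fx j hj (n + 1) (by omega) (by omega) e with h | h
    · simpa using h
    · rw [Nat.add_sub_cancel] at h
      exact (hE n h le_rfl (by omega)).elim

/-- Runs going up. -/
lemma Clo.asc {J E : Finset ℕ} (hC : Clo k x y c J E) {i u : ℕ} (hi1 : 1 ≤ i) (hui : i ≤ u) (huk : u ≤ k)
    (hi : ∃ j ∈ J, c j = y i) (hE : ∀ e ∈ E, i < e → e ≤ u → False) : ∃ j ∈ J, c j = y u := by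
  induction u, hui using Nat.le_induction with
  | base => exact hi
  | succ n hn ih =>
    obtain ⟨j, hj, e⟩ := ih (by omega) (fun a ha h1 h2 => hE a ha h1 (by omega))
    rcases hC.fy j hj n (by omega) (by omega) e with h | h
    · exact h
    · exact (hE _ h (by omega) le_rfl).elim

end CLB.H62
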