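import Pool.Agent.Helper3_DA.WdFin
import Pool.Agent.Helper45_DA.FFI

/-!
Short chains: the word of a caterpillar with at least six vertices over at most six units has a good end.
-/

set_option autoImplicit false
set_option linter.unusedSectionVars false

namespace CLB.H62

open Finset Classical
open CLB.H95
open CLB.H3 (Cat ltr NoG nw_ltr ltr_law ltr_le outN_le ltr_three ltr_mir pc_pos outN)
open CLB.H3.Wd (pt wt Law nw sr trn acc acce law_acc law_acce Vd)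

lemma nb {a b : ℕ} : Nat.beq a b = true ↔ a = b :=
  ⟨Nat.eq_of_beq_eq_true, fun h => by subst h; exact Nat.beq_refl a⟩

/-- Good ends of length two. -/
def gd2 : List (List ℕ) := [[2,2],[3,2]]

/-- Good ends of length three. -/
def gd3 : List (List ℕ) := [[2,0,2],[1,1,2],[1,2,1],[2,1,1],[2,1,2],[3,1,1],[3,1,2]]

def b2 (a b : ℕ) : Bool := (Nat.beq a 2 || Nat.beq a 3) && Nat.beq b 2

def b3 (a b c : ℕ) : Bool :=
  (Nat.beq a 2 && Nat.beq b 0 && Nat.beq c 2) || (Nat.beq a 1 && Nat.beq b 1 && Nat.beq c 2) ||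
    (Nat.beq a 1 && Nat.beq b 2 && Nat.beq c 1) ||
    ((Nat.beq a 2 || Nat.beq a 3) && Nat.beq b 1 && (Nat.beq c 1 || Nat.beq c 2))

/-- A good left end of a word. -/
def GdL (w : ℕ → ℕ) (k : ℕ) : Prop :=
  (∃ g ∈ gd2, ∀ i (h : i < g.length), pt (w (i + 1)) = g[i]) ∨
    (5 ≤ k ∧ ∃ g ∈ gd3, ∀ i (h : i < g.length), pt (w (i + 1)) = g[i])

lemma gdL_two {w : ℕ → ℕ} {k : ℕ} (h : b2 (pt (w 1)) (pt (w 2)) = true) : GdL w k := by
  left
  unfold b2 at h
  simp only [Bool.and_eq_true, Bool.or_eq_true, nb] at h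
  rcases h with ⟨h1 | h1, h2⟩
  · refine ⟨[2,2], by simp [gd2], fun i hi => ?_⟩
    have : i = 0 ∨ i = 1 := by simp at hi; omega
    rcases this with rfl | rfl
    · exact h1
    · exact h2
  · refine ⟨[3,2], by simp [gd2], fun i hi => ?_⟩
    have : i = 0 ∨ i = 1 := by simp at hi; omega
    rcases this with rfl | rfl
    · exact h1
    · exact h2

lemma gdL_three {w : ℕ → ℕ} {k : ℕ} (hk : 5 ≤ k) (h : b3 (pt (w 1)) (pt (w 2)) (pt (w 3)) = true) :
    GdL w k := by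
  right
  refine ⟨hk, ?_⟩
  have key : ∀ a b c, [a, b, c] ∈ gd3 → pt (w 1) = a → pt (w 2) = b → pt (w 3) = c →
      ∃ g ∈ gd3, ∀ i (h : i < g.length), pt (w (i + 1)) = g[i] := by
    intro a b c hg e1 e2 e3
    refine ⟨[a, b, c], hg, fun i hi => ?_⟩
    have : i = 0 ∨ i = 1 ∨ i = 2 := by simp at hi; omega
    rcases this with rfl | rfl | rfl
    · exact e1
    · exact e2
    · exact e3
  unfold b3 at h
  simp only [Bool.and_eq_true, Bool.or_eq_true, nb] at h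
  rcases h with ((⟨⟨e1, e2⟩, e3⟩ | ⟨⟨e1, e2⟩, e3⟩) | ⟨⟨e1, e2⟩, e3⟩) | ⟨⟨e1 | e1, e2⟩, e3 | e3⟩
  · exact key 2 0 2 (by simp [gd3]) e1 e2 e3
  · exact key 1 1 2 (by simp [gd3]) e1 e2 e3
  · exact key 1 2 1 (by simp [gd3]) e1 e2 e3
  · exact key 2 1 1 (by simp [gd3]) e1 e2 e3
  · exact key 2 1 2 (by simp [gd3]) e1 e2 e3
  · exact key 3 1 1 (by simp [gd3]) e1 e2 e3
  · exact key 3 1 2 (by simp [gd3]) e1 e2 e3

def s2 (s : ℕ × ℕ) (l : ℕ) : ℕ × ℕ := ((trn s.1 l).1, s.2 + (trn s.1 l).2)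

def lst (s : ℕ × ℕ) (l : ℕ) : Bool :=
  if Nat.beq l 5 then acce s.1 s.2 else acc (s2 s l).1 (s2 s l).2

def ck4 (a b c d : ℕ) : Bool :=
  Nat.blt (wt a + wt b + wt c + wt d) 7 || (Nat.beq b 3 && Nat.beq c 3) ||
    b2 (pt a) (pt b) || b2 (pt d) (pt c) || Nat.beq d 4 ||
    !(lst (s2 (s2 (s2 (0, 0) a) b) c) d)

def ck5 (a b c d e : ℕ) : Bool :=
  Nat.blt (wt a + wt b + wt c + wt d + wt e) 7 || (Nat.beq b 3 && Nat.beq c 3) ||
    (Nat.beq c 3 && Nat.beq d 3) || b2 (pt a) (pt b) || b2 (pt e) (pt d) ||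
    b3 (pt a) (pt b) (pt c) || b3 (pt e) (pt d) (pt c) || Nat.beq e 4 ||
    !(lst (s2 (s2 (s2 (s2 (0, 0) a) b) c) d) e)

def ck6 (a b c d e f : ℕ) : Bool :=
  Nat.blt (wt a + wt b + wt c + wt d + wt e + wt f) 7 || (Nat.beq b 3 && Nat.beq c 3) ||
    (Nat.beq c 3 && Nat.beq d 3) || (Nat.beq d 3 && Nat.beq e 3) || b2 (pt a) (pt b) ||
    b2 (pt f) (pt e) || b3 (pt a) (pt b) (pt c) || b3 (pt f) (pt e) (pt d) || Nat.beq f 4 ||
    !(lst (s2 (s2 (s2 (s2 (s2 (0, 0) a) b) c) d) e) f)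

lemma t4 : ∀ a < 5, ∀ b < 4, ∀ c < 4, ∀ d < 6, ck4 a b c d = true := by decide +kernel

lemma t5 : ∀ a < 5, ∀ b < 4, ∀ c < 4, ∀ d < 4, ∀ e < 6, ck5 a b c d e = true := by decide +kernel

lemma t6 : ∀ a < 5, ∀ b < 4, ∀ c < 4, ∀ d < 4, ∀ e < 4, ∀ f < 6, ck6 a b c d e f = true := by
  decide +kernel

lemma wt_le (l : ℕ) : wt l ≤ 2 := by
  unfold wt; split_ifs <;> omega

lemma lst_of {w : ℕ → ℕ} {n : ℕ} (h1 : w 1 ≤ 4) (h2 : ∀ i, 2 ≤ i → i < n + 1 → w i ≤ 3)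
    (h3 : w (n + 1) ≤ 3 ∨ w (n + 1) = 5) (hn : 1 ≤ n) (hl : Law w (n + 1)) :
    lst (sr w n) (w (n + 1)) = true := by
  unfold lst
  by_cases h5 : w (n + 1) = 5
  · rw [if_pos (by rw [h5]; rfl)]
    refine law_acce ⟨fun i i1 i2 => ?_, fun i i1 i2 => h2 i i1 (by omega)⟩ h5 hl
    by_cases hi : i = 1
    · rw [hi]; exact h1
    · have := h2 i (by omega) (by omega)
      omega
  · rw [if_neg (by rw [nb]; exact h5)]
    refine law_acc (w := w) (k := n + 1) ⟨fun i i1 i2 => ?_, fun i i1 i2 => ?_⟩ hl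
    · by_cases hi : i = 1
      · rw [hi]; exact h1
      · by_cases hi' : i = n + 1
        · rw [hi']; omega
        · have := h2 i (by omega) (by omega)
          omega
    · by_cases hi' : i = n + 1
      · rw [hi']; omega
      · exact h2 i i1 (by omega)

/-- The words over at most six units. -/
theorem small_word {w : ℕ → ℕ} {k : ℕ} (hk : k ≤ 6) (h1 : w 1 ≤ 4)
    (h2 : ∀ i, 2 ≤ i → i < k → w i ≤ 3) (h3 : w k ≤ 3 ∨ w k = 5) (hl : Law w k) (hn : 7 ≤ nw w k)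
    (hff : ∀ i, 2 ≤ i → i + 2 ≤ k → w i = 3 → w (i + 1) ≠ 3) :
    4 ≤ k ∧ (GdL w k ∨ GdL (fun i => w (k + 1 - i)) k) := by
  have l1 := wt_le (w 1)
  have l2 := wt_le (w 2)
  have l3 := wt_le (w 3)
  have hk' : k = 0 ∨ k = 1 ∨ k = 2 ∨ k = 3 ∨ k = 4 ∨ k = 5 ∨ k = 6 := by omega
  rcases hk' with rfl | rfl | rfl | rfl | rfl | rfl | rfl
  · exact absurd hn (by show ¬ 7 ≤ 0; omega)
  · exact absurd hn (by show ¬ 7 ≤ 0 + wt (w 1); omega)
  · exact absurd hn (by show ¬ 7 ≤ 0 + wt (w 1) + wt (w 2); omega)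
  · exact absurd hn (by show ¬ 7 ≤ 0 + wt (w 1) + wt (w 2) + wt (w 3); omega)
  · refine ⟨le_rfl, ?_⟩
    have hA := lst_of (n := 3) h1 h2 h3 (by omega) hl
    have hA' : lst (s2 (s2 (s2 (0, 0) (w 1)) (w 2)) (w 3)) (w 4) = true := hA
    have hn' : 7 ≤ 0 + wt (w 1) + wt (w 2) + wt (w 3) + wt (w 4) := hn
    have ht := t4 (w 1) (by omega) (w 2) (by have := h2 2 le_rfl (by omega); omega) (w 3)
      (by have := h2 3 (by omega) (by omega); omega) (w 4) (by omega)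
    unfold ck4 at ht
    rw [hA'] at ht
    simp only [Bool.or_eq_true, Bool.and_eq_true, Nat.blt_eq, nb, Bool.not_true,
      Bool.false_eq_true, or_false] at ht
    rcases ht with (((ht | ⟨ht, ht'⟩) | ht) | ht) | ht
    · omega
    · exact absurd ht' (hff 2 le_rfl (by omega) ht)
    · exact Or.inl (gdL_two ht)
    · exact Or.inr (gdL_two (w := fun i => w (4 + 1 - i)) ht)
    · omega
  · refine ⟨by omega, ?_⟩
    have hA := lst_of (n := 4) h1 h2 h3 (by omega) hl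
    have hA' : lst (s2 (s2 (s2 (s2 (0, 0) (w 1)) (w 2)) (w 3)) (w 4)) (w 5) = true := hA
    have hn' : 7 ≤ 0 + wt (w 1) + wt (w 2) + wt (w 3) + wt (w 4) + wt (w 5) := hn
    have ht := t5 (w 1) (by omega) (w 2) (by have := h2 2 le_rfl (by omega); omega) (w 3)
      (by have := h2 3 (by omega) (by omega); omega) (w 4)
      (by have := h2 4 (by omega) (by omega); omega) (w 5) (by omega)
    unfold ck5 at ht
    rw [hA'] at ht
    simp only [Bool.or_eq_true, Bool.and_eq_true, Nat.blt_eq, nb, Bool.not_true,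
      Bool.false_eq_true, or_false] at ht
    rcases ht with (((((((ht | ⟨ht, ht'⟩) | ⟨ht, ht'⟩) | ht) | ht) | ht) | ht) | ht)
    · omega
    · exact absurd ht' (hff 2 le_rfl (by omega) ht)
    · exact absurd ht' (hff 3 (by omega) (by omega) ht)
    · exact Or.inl (gdL_two ht)
    · exact Or.inr (gdL_two (w := fun i => w (5 + 1 - i)) ht)
    · exact Or.inl (gdL_three le_rfl ht)
    · exact Or.inr (gdL_three (w := fun i => w (5 + 1 - i)) le_rfl ht)
    · omega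
  · refine ⟨by omega, ?_⟩
    have hA := lst_of (n := 5) h1 h2 h3 (by omega) hl
    have hA' : lst (s2 (s2 (s2 (s2 (s2 (0, 0) (w 1)) (w 2)) (w 3)) (w 4)) (w 5)) (w 6) = true := hA
    have hn' : 7 ≤ 0 + wt (w 1) + wt (w 2) + wt (w 3) + wt (w 4) + wt (w 5) + wt (w 6) := hn
    have ht := t6 (w 1) (by omega) (w 2) (by have := h2 2 le_rfl (by omega); omega) (w 3)
      (by have := h2 3 (by omega) (by omega); omega) (w 4)
      (by have := h2 4 (by omega) (by omega); omega) (w 5)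
      (by have := h2 5 (by omega) (by omega); omega) (w 6) (by omega)
    unfold ck6 at ht
    rw [hA'] at ht
    simp only [Bool.or_eq_true, Bool.and_eq_true, Nat.blt_eq, nb, Bool.not_true,
      Bool.false_eq_true, or_false] at ht
    rcases ht with ((((((((ht | ⟨ht, ht'⟩) | ⟨ht, ht'⟩) | ⟨ht, ht'⟩) | ht) | ht) | ht) | ht) | ht)
    · omega
    · exact absurd ht' (hff 2 le_rfl (by omega) ht)
    · exact absurd ht' (hff 3 (by omega) (by omega) ht)
    · exact absurd ht' (hff 4 (by omega) (by omega) ht)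
    · exact Or.inl (gdL_two ht)
    · exact Or.inr (gdL_two (w := fun i => w (6 + 1 - i)) ht)
    · exact Or.inl (gdL_three (by omega) ht)
    · exact Or.inr (gdL_three (w := fun i => w (6 + 1 - i)) (by omega) ht)
    · omega

variable {V : Type*} {G : SimpleGraph V} {R : V → Bool} [Fintype V] {m : ℕ} {z c : ℕ → V} {k : ℕ}
  {x y : ℕ → V}

/-- Good ends for short chains. -/
def GoodS (k : ℕ) (x y : ℕ → V) (m : ℕ) (c : ℕ → V) : Prop :=
  (∃ g ∈ gd2, ∀ i (h : i < g.length), pt (ltr m c x y (i + 1)) = g[i]) ∨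
    (5 ≤ k ∧ ∃ g ∈ gd3, ∀ i (h : i < g.length), pt (ltr m c x y (i + 1)) = g[i])

lemma gdL_congr {w w' : ℕ → ℕ} {k : ℕ} (h : ∀ i, pt (w i) = pt (w' i)) (hw : GdL w k) : GdL w' k := by
  rcases hw with ⟨g, hg, hw⟩ | ⟨hk, g, hg, hw⟩
  · exact Or.inl ⟨g, hg, fun i hi => (h _).symm.trans (hw i hi)⟩
  · exact Or.inr ⟨hk, g, hg, fun i hi => (h _).symm.trans (hw i hi)⟩

/-- **Short chains have a good end.** -/
theorem small_good (hG : ClassC G R) (hc : Crit G R) (h : Chn G R k x y) (hcat : Cat G R m z c)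
    (hk : k ≤ 6) (hm : 6 ≤ m) (hn : NCp m (JC k x y c)) (hno : NoG k x y m c) :
    4 ≤ k ∧ (GoodS k x y m c ∨ GoodS k (fun i => y (k + 1 - i)) (fun i => x (k + 1 - i)) m c) := by
  have hout := outN_le (by omega) hn
  have hnw := nw_ltr hG hcat h hno
  have hpos := h.pos
  have wtl := wt_le (ltr m c x y 1)
  have hk2 : 2 ≤ k := by
    by_contra hcon
    have e : k = 1 := by omega
    rw [e] at hnw hout
    have : nw (ltr m c x y) 1 = 0 + wt (ltr m c x y 1) := rfl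
    omega
  obtain ⟨l1, l2, l3⟩ := ltr_le hG hcat h hk2
  obtain ⟨h4, h5⟩ := small_word hk l1 l2 l3 (ltr_law hG hcat h hno hout) (by omega)
    (fun i i1 i2 e1 e2 => by
      have a1 := ltr_three.1 e1
      have a2 := ltr_three.1 e2
      exact CLB.H45.ffi hG hc hcat hm h i1 i2 (pc_pos.1 a1.1) (pc_pos.1 a1.2) (pc_pos.1 a2.1)
        (pc_pos.1 a2.2))
  refine ⟨h4, ?_⟩
  rcases h5 with h5 | h5
  · exact Or.inl h5
  · exact Or.inr (gdL_congr (fun i => ltr_mir.symm) h5)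

end CLB.H62
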