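import Pool.Agent.Helper62_DA.Iso3

/-!
The mates of the leaf ports `x 3`, `x 4` when `x 1`, `x 2` are inner ports.
-/

set_option autoImplicit false
set_option linter.unusedSectionVars false

namespace CLB.H62

open Finset Classical
open CLB.H95
open H3DA (Q neg nr)
open CLB.H3 (CExt Cat IsTwo pos)

variable {V : Type*} {G : SimpleGraph V} {R : V → Bool} [Fintype V] {k : ℕ} {x y : ℕ → V}
  {m : ℕ} {z c : ℕ → V}

lemma leaf_pos (hm : 1 ≤ m) {j : ℕ} : (j = 0 ∨ j = 1 ∨ j = m ∨ j = m + 1) ↔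
    (pos m j = 1 ∨ pos m j = m) ∧ j ≤ m + 1 := by
  unfold pos
  split_ifs <;> omega

/-- The mate of a leaf port `x n` when the unit `n - 1` has no leaf: fork at position `p`. -/
lemma fork_x (C : Cf G R k x y m z c) {p l j n : ℕ} (hp : p = 1 ∨ p = m) (hl : l ≤ m + 1)
    (hj : j ≤ m + 1) (pl : pos m l = p) (pj : pos m j = p) (hlj : l ≠ j) (hn : 2 ≤ n) (hnk : n ≤ k)
    (cl : c l = x n) (hx1 : ∀ i ≤ m + 1, c i = x 1 → pos m i ≠ p)
    (hyn : 3 ≤ n → ∀ i ≤ m + 1, c i = y (n - 2) → pos m i ≠ p) (hn2 : n = 2 → 2 ≤ n) :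
    c j = y k ∨ ¬ InC k x y (c j) := by
  by_cases hin : InC k x y (c j)
  swap
  · exact Or.inr hin
  left
  have hm := C.hm
  obtain ⟨u, u1, u2, hu⟩ := hin
  have hS : ∀ i ∈ SL m p p, i = l ∨ i = j := by
    intro i hi
    rw [mem_SL] at hi
    have h1 : pos m i = p := by omega
    have h2 := hi.1
    rcases hp with rfl | rfl
    · unfold pos at h1 pl pj
      split_ifs at h1 pl pj <;> omega
    · unfold pos at h1 pl pj
      split_ifs at h1 pl pj <;> omega
  have hlS : l ∈ SL m p p := by rw [mem_SL, pl]; exact ⟨hl, le_rfl, le_rfl⟩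
  have hjS : j ∈ SL m p p := by rw [mem_SL, pj]; exact ⟨hj, le_rfl, le_rfl⟩
  have hpar : ∀ i ∈ SL m p p, ∀ w, 1 ≤ w → w ≤ k → (c i = x w ∨ c i = y w) → w % 2 = n % 2 := by
    intro i hi w w1 w2 hw
    rw [mem_SL] at hi
    exact C.par hi.1 hl ⟨w1, w2⟩ ⟨by omega, hnk⟩ hw (Or.inl cl) (by omega)
  have hC : Clo k x y c (SL m p p) {n - 1} := by
    refine clo C.hG C.h C.hcat (p := p) (q := p) (by omega) le_rfl (by omega)
      (fun i hi => mem_SL.1 hi) ?_ ?_ ?_
    · intro i hi i' hi' hme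
      rw [mem_SL] at hi hi'
      have := C.far hi.1 hi'.1 hme
      omega
    · intro e he
      rw [mem_singleton] at he
      subst he
      refine ⟨by omega, by omega, fun i hi => ⟨fun e => ?_, fun e => ?_⟩, Or.inr ⟨l, hlS, by omega, ?_⟩⟩
      · have := hpar i hi (n - 1) (by omega) (by omega) (Or.inl e)
        omega
      · have := hpar i hi (n - 1) (by omega) (by omega) (Or.inr e)
        omega
      · rw [show n - 1 + 1 = n by omega]
        exact cl
    · have h2 : 2 ≤ (SL m p p).card := by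
        have : ({l, j} : Finset ℕ) ⊆ SL m p p := by
          intro i hi
          rw [mem_insert, mem_singleton] at hi
          rcases hi with rfl | rfl
          · exact hlS
          · exact hjS
        have h3 := card_le_card this
        rwa [card_pair hlj] at h3
      rw [card_singleton]
      omega
  rcases hu with hu | hu
  · exfalso
    by_cases h1 : u = 1
    · rw [h1] at hu
      exact hx1 j hj hu pj
    · rcases hC.fx j hjS u (by omega) u2 hu with ⟨i, hi, e⟩ | h2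
      · have := hpar i hi (u - 1) (by omega) (by omega) (Or.inl e)
        have := hpar j hjS u u1 u2 (Or.inl hu)
        omega
      · rw [mem_singleton] at h2
        have h3 : u = n := by omega
        rw [h3] at hu
        exact hlj (C.ux hl hj (by omega) hnk cl hu)
  · by_cases h1 : u = k
    · rw [hu, h1]
    · exfalso
      rcases hC.fy j hjS u u1 (by omega) hu with ⟨i, hi, e⟩ | h2
      · have := hpar i hi (u + 1) (by omega) (by omega) (Or.inr e)
        have := hpar j hjS u u1 u2 (Or.inr hu)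
        omega
      · rw [mem_singleton] at h2
        have h3 : u = n - 2 := by omega
        rw [h3] at hu
        exact hyn (by omega) j hj hu pj

/-- **The mates of `x 3` and `x 4`.** -/
theorem x2_mates (C : Cf G R k x y m z c) (hk : 5 ≤ k) {i1 i2 i3 i4 : ℕ} (h1 : 2 ≤ i1 ∧ i1 + 1 ≤ m)
    (h2 : 2 ≤ i2 ∧ i2 + 1 ≤ m) (h3 : i3 ≤ m + 1) (h4 : i4 ≤ m + 1) (c1 : c i1 = x 1) (c2 : c i2 = x 2)
    (c3 : c i3 = x 3) (c4 : c i4 = x 4) (p3 : pos m i3 = 1 ∨ pos m i3 = m)
    (p4 : pos m i4 = 1 ∨ pos m i4 = m) (hne : pos m i3 ≠ pos m i4)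
    (hy1 : ∀ j ≤ m + 1, c j ≠ y 1) (hy2 : ∀ j ≤ m + 1, c j ≠ y 2) :
    (∃ j ≤ m + 1, (j = 0 ∨ j = 1 ∨ j = m ∨ j = m + 1) ∧ c j = y k) ∧
      ∀ j ≤ m + 1, (j = 0 ∨ j = 1 ∨ j = m ∨ j = m + 1) → j ≠ i3 → j ≠ i4 →
        c j = y k ∨ ¬ InC k x y (c j) := by
  have hm := C.hm
  have hx1 : ∀ p, p = 1 ∨ p = m → ∀ i ≤ m + 1, c i = x 1 → pos m i ≠ p := by
    intro p hp i hi e hpi
    have := C.ux hi (by omega : i1 ≤ m + 1) le_rfl (by omega) e c1
    subst this
    rw [CLB.H3.pos_mid (by omega) (by omega)] at hpi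
    omega
  have key : ∀ j ≤ m + 1, (j = 0 ∨ j = 1 ∨ j = m ∨ j = m + 1) → j ≠ i3 → j ≠ i4 →
      c j = y k ∨ ¬ InC k x y (c j) := by
    intro j hj hjl n3 n4
    have hpj := ((leaf_pos (m := m) (by omega)).1 hjl).1
    by_cases h : pos m j = pos m i3
    · exact fork_x C p3 h3 hj rfl h n3.symm (n := 3) (by omega) (by omega) c3 (hx1 _ p3)
        (fun _ i hi e => absurd e (hy1 i hi)) (fun h => by omega)
    · have h' : pos m j = pos m i4 := by omega
      exact fork_x C p4 h4 hj rfl h' n4.symm (n := 4) (by omega) (by omega) c4 (hx1 _ p4)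
        (fun _ i hi e => absurd e (hy2 i hi)) (fun h => by omega)
  refine ⟨?_, key⟩
  -- the two mates
  have ex : ∀ i, i ≤ m + 1 → (pos m i = 1 ∨ pos m i = m) →
      ∃ j ≤ m + 1, (j = 0 ∨ j = 1 ∨ j = m ∨ j = m + 1) ∧ j ≠ i ∧ pos m j = pos m i := by
    intro i hi hp
    rcases hp with hp | hp
    · by_cases h0 : i = 0
      · refine ⟨1, by omega, Or.inr (Or.inl rfl), by omega, ?_⟩
        rw [hp, CLB.H3.pos_one (by omega)]
      · refine ⟨0, by omega, Or.inl rfl, by omega, ?_⟩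
        rw [hp, CLB.H3.pos_zero]
    · by_cases h0 : i = m + 1
      · refine ⟨m, by omega, Or.inr (Or.inr (Or.inl rfl)), by omega, ?_⟩
        rw [hp, CLB.H3.pos_mid (by omega) le_rfl]
      · refine ⟨m + 1, le_rfl, Or.inr (Or.inr (Or.inr rfl)), by omega, ?_⟩
        rw [hp, CLB.H3.pos_last]
  obtain ⟨a, ha, hal, hne3, hpa⟩ := ex i3 h3 p3
  obtain ⟨b, hb, hbl, hne4, hpb⟩ := ex i4 h4 p4
  have hab : a ≠ b := by rintro rfl; exact hne (hpa.symm.trans hpb)
  have ha4 : a ≠ i4 := by rintro rfl; exact hne hpa.symm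
  have hb3 : b ≠ i3 := by rintro rfl; exact hne hpb
  rcases key a ha hal hne3 ha4 with h | h
  · exact ⟨a, ha, hal, h⟩
  · rcases key b hb hbl hb3 hne4 with h' | h'
    · exact ⟨b, hb, hbl, h'⟩
    · exact absurd (C.out a b ha hb h h') hab

end CLB.H62
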